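import Mathlib

/-!
A combinatorial lemma: a function of `n` variables in a commutative group generated by fewer than
`n` elements, which vanishes as soon as a variable is `1` and whose mixed second differences with
the same increment vanish, is zero.
-/

set_option autoImplicit false

namespace Pool.Agent.Helper59.Split

open Function

variable {C Q : Type*} [CommGroup C] [AddCommGroup Q]

/-- The three-variable step. -/
lemma three_var (G : C → C → C → Q) (h1 : ∀ a c, G a 1 c = 0)
    (hpr : ∀ a b c k, G (a * k) (b * k) c - G (a * k) b c - G a (b * k) c + G a b c = 0)
    (hrq : ∀ a b c k, G a (b * k) (c * k) - G a (b * k) c - G a b (c * k) + G a b c = 0)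
    (a b c k : C) :
    G (a * k) b (c * k) - G (a * k) b c - G a b (c * k) + G a b c = 0 := by
  have sw : ∀ a u c k, G (a * k) u c - G a u c = G a k c - G (a * u) k c := by
    intro a u c k
    have v1 : ∀ a k, G (a * k) k c = G a k c := by
      intro a k
      have := hpr a 1 c k
      simp only [one_mul, h1] at this
      linear_combination (norm := abel) this
    have i1 : G (a * k * u) (k * u) c = G a (k * u) c := by
      rw [mul_assoc]; exact v1 a (k * u)
    have i2 := hpr (a * k) k c u
    have i3 := hpr a k c u
    have i4 := hpr a u c k
    have i5 : G (a * k * u) k c = G (a * u) k c := by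
      rw [mul_right_comm]; exact v1 _ _
    have i6 : G (a * k) k c = G a k c := v1 _ _
    rw [i1, i5, i6] at i2
    rw [mul_comm u k] at i4
    linear_combination (norm := abel) - i2 - i4
  have s1 := sw a b c k
  have s2 := sw a b (c * k) k
  have r1 := hrq a 1 c k
  have r2 := hrq (a * b) 1 c k
  simp only [one_mul, h1] at r1 r2
  linear_combination (norm := abel) s2 - s1 + r1 - r2

/-- The class of functions. -/
structure Cls (n : ℕ) (f : (Fin n → C) → Q) : Prop where
  one : ∀ x p, x p = 1 → f x = 0
  dd : ∀ (x : Fin n → C) (p q : Fin n), p ≠ q → ∀ k : C,
    f (update (update x p (x p * k)) q (x q * k)) - f (update x p (x p * k))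
      - f (update x q (x q * k)) + f x = 0

lemma Cls.of_adjacent {n : ℕ} {f : (Fin n → C) → Q} (one : ∀ x p, x p = 1 → f x = 0)
    (dd : ∀ (x : Fin n → C) (p q : Fin n), (p : ℕ) + 1 = q → ∀ k : C,
      f (update (update x p (x p * k)) q (x q * k)) - f (update x p (x p * k))
        - f (update x q (x q * k)) + f x = 0) : Cls n f := by
  have main : ∀ (d : ℕ) (x : Fin n → C) (p q : Fin n), (p : ℕ) + 1 + d = q → ∀ k : C,
      f (update (update x p (x p * k)) q (x q * k)) - f (update x p (x p * k))
        - f (update x q (x q * k)) + f x = 0 := by
    intro d
    induction d with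
    | zero => intro x p q hpq k; exact dd x p q (by simpa using hpq) k
    | succ d ih =>
      intro x p q hpq k
      have hr : (p : ℕ) + 1 < n := by have := q.2; omega
      set r : Fin n := ⟨(p : ℕ) + 1, hr⟩ with hrdef
      have hpr : p ≠ r := by intro h; have := congrArg Fin.val h; simp [hrdef] at this
      have hrq : r ≠ q := by
        intro h; have := congrArg Fin.val h; simp [hrdef] at this; omega
      have hpq' : p ≠ q := by
        intro h; have := congrArg Fin.val h; omega
      set G : C → C → C → Q := fun a b c => f (update (update (update x p a) r b) q c) with hG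
      have hGe : ∀ a b c, G a b c = f (update (update (update x p a) r b) q c) := fun _ _ _ => rfl
      have e1 : ∀ a b c k, update (update (update (update x p a) r b) q c) r (b * k)
          = update (update (update x p a) r (b * k)) q c := by
        intro a b c k
        rw [update_comm hrq.symm, update_idem]
      have e2 : ∀ a b c k, update (update (update (update x p a) r b) q c) p (a * k)
          = update (update (update x p (a * k)) r b) q c := by
        intro a b c k
        rw [update_comm hpq'.symm, update_comm hpr.symm, update_idem]
      have h := three_var G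
        (fun a c => one _ r (by simp [update_of_ne hrq]))
        (fun a b c k => by
          have := dd (update (update (update x p a) r b) q c) p r rfl k
          have t1 : (update (update (update x p a) r b) q c) p = a := by
            rw [update_of_ne hpq', update_of_ne hpr, update_self]
          have t2 : (update (update (update x p a) r b) q c) r = b := by
            rw [update_of_ne hrq, update_self]
          rw [t1, t2, e2, e1, e1] at this
          exact this)
        (fun a b c k => by
          have := ih (update (update (update x p a) r b) q c) r q (by simp [hrdef]; omega) k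
          have t2 : (update (update (update x p a) r b) q c) r = b := by
            rw [update_of_ne hrq, update_self]
          have t3 : (update (update (update x p a) r b) q c) q = c := by
            rw [update_self]
          rw [t2, t3, e1, update_idem, update_idem] at this
          exact this)
        (x p) (x r) (x q) k
      have u1 : update (update (update x p (x p)) r (x r)) q (x q) = x := by simp
      have u2 : update (update (update x p (x p * k)) r (x r)) q (x q) = update x p (x p * k) := by
        have : x r = (update x p (x p * k)) r := by rw [update_of_ne hpr.symm]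
        rw [this, update_eq_self]
        have : x q = (update x p (x p * k)) q := by rw [update_of_ne hpq'.symm]
        rw [this, update_eq_self]
      have u3 : update (update (update x p (x p)) r (x r)) q (x q * k) = update x q (x q * k) := by
        simp
      have u4 : update (update (update x p (x p * k)) r (x r)) q (x q * k)
          = update (update x p (x p * k)) q (x q * k) := by
        have : x r = (update x p (x p * k)) r := by rw [update_of_ne hpr.symm]
        rw [this, update_eq_self]
      rw [hGe, hGe, hGe, hGe, u1, u2, u3, u4] at h
      exact h
  refine ⟨one, ?_⟩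
  intro x p q hpq k
  rcases lt_or_gt_of_ne (fun h => hpq (Fin.ext h) : (p : ℕ) ≠ q) with h | h
  · obtain ⟨d, hd⟩ := Nat.exists_eq_add_of_lt h
    exact main d x p q (by omega) k
  · obtain ⟨d, hd⟩ := Nat.exists_eq_add_of_lt h
    have := main d x q p (by omega) k
    rw [update_comm hpq] 
    linear_combination (norm := abel) this

lemma update_zpow_inv {m : ℕ} {g : (Fin m → C) → Q} {K' : Subgroup C} {b : C} (hb : b ∈ K')
    (hinv : ∀ x : Fin m → C, (∀ q, x q ∈ K') → ∀ j, g (update x j (x j * b)) = g x)
    (z : ℤ) : ∀ (x : Fin m → C), (∀ q, x q ∈ K') → ∀ j, g (update x j (x j * b ^ z)) = g x := by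
  have hmem : ∀ (x : Fin m → C), (∀ q, x q ∈ K') → ∀ j (c : C), c ∈ K' →
      ∀ q, update x j (x j * c) q ∈ K' := by
    intro x hx j c hc q
    by_cases h : q = j
    · subst h; rw [update_self]; exact K'.mul_mem (hx q) hc
    · rw [update_of_ne h]; exact hx q
  induction z using Int.induction_on with
  | zero => intro x hx j; simp
  | succ i ih =>
    intro x hx j
    have h1 := hinv (update x j (x j * b ^ (i : ℤ))) (hmem x hx j _ (K'.zpow_mem hb _)) j
    rw [update_idem, update_self, ih x hx j, mul_assoc, ← zpow_add_one] at h1
    exact h1
  | pred i ih =>
    intro x hx j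
    have h1 := hinv (update x j (x j * b ^ (-(i : ℤ) - 1))) (hmem x hx j _ (K'.zpow_mem hb _)) j
    rw [update_idem, update_self, mul_assoc, ← zpow_add_one, sub_add_cancel, ih x hx j] at h1
    exact h1.symm

lemma pow_inv_ext {m : ℕ} {g : (Fin m → C) → Q} {K' : Subgroup C} {b : C} (hb : b ∈ K')
    (hinv : ∀ x : Fin m → C, (∀ q, x q ∈ K') → ∀ j, g (update x j (x j * b)) = g x)
    (z : Fin m → ℤ) (x : Fin m → C) (hx : ∀ q, x q ∈ K') :
    g (fun j => x j * b ^ z j) = g x := by
  have key : ∀ s : Finset (Fin m), g (fun j => if j ∈ s then x j * b ^ z j else x j) = g x := by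
    intro s
    induction s using Finset.induction_on with
    | empty => simp
    | insert i s hi ih =>
      have h1 := update_zpow_inv hb hinv (z i) (fun j => if j ∈ s then x j * b ^ z j else x j)
        (fun q => by
          by_cases h : q ∈ s
          · simp only [h, if_true]; exact K'.mul_mem (hx q) (K'.zpow_mem hb _)
          · simp only [h, if_false]; exact hx q) i
      rw [ih] at h1
      rw [← h1]
      congr 1
      funext j
      by_cases h : j = i
      · subst h; simp [hi]
      · simp [h, update_of_ne h]
  have := key Finset.univ
  simpa using this

/-- The vanishing lemma. -/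
theorem Cls.zero (bs : List C) : ∀ (n : ℕ) (f : (Fin n → C) → Q), Cls n f → bs.length < n →
    ∀ x : Fin n → C, (∀ p, x p ∈ Subgroup.closure {b | b ∈ bs}) → f x = 0 := by
  induction bs with
  | nil =>
    intro n f hf hn x hx
    have h0 : x ⟨0, by simpa using hn⟩ ∈ Subgroup.closure {b : C | b ∈ ([] : List C)} := hx _
    simp at h0
    exact hf.one x _ h0
  | cons b bs ih =>
    intro n f hf hn x hx
    obtain ⟨m, rfl⟩ : ∃ m, n = m + 1 := ⟨n - 1, by simp at hn; omega⟩
    simp only [List.length_cons, add_lt_add_iff_right] at hn
    set K' := Subgroup.closure {c | c ∈ b :: bs} with hK'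
    set L := Subgroup.closure {c | c ∈ bs} with hL
    have hb : b ∈ K' := Subgroup.subset_closure (by simp)
    have hLK : L ≤ K' := Subgroup.closure_mono (by intro c hc; simp at hc ⊢; exact Or.inr hc)
    have hdec : ∀ c ∈ K', ∃ l ∈ L, ∃ z : ℤ, c = l * b ^ z := by
      intro c hc
      have e : {c | c ∈ b :: bs} = {b} ∪ {c | c ∈ bs} := by
        ext c; simp
      rw [hK', e, Subgroup.closure_union, Subgroup.mem_sup] at hc
      obtain ⟨y, hy, z, hz, rfl⟩ := hc
      rw [Subgroup.mem_closure_singleton] at hy
      obtain ⟨k, rfl⟩ := hy
      exact ⟨z, hz, k, mul_comm _ _⟩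
    -- first differences vanish
    have hinv : ∀ x : Fin (m + 1) → C, (∀ q, x q ∈ K') → ∀ p, f (update x p (x p * b)) = f x := by
      intro x hx p
      set g : (Fin m → C) → Q := fun y => f (p.insertNth (x p * b) y) - f (p.insertNth (x p) y)
        with hg
      have hge : ∀ y, g y = f (p.insertNth (x p * b) y) - f (p.insertNth (x p) y) := fun _ => rfl
      have hgc : Cls m g := by
        constructor
        · intro y j hj
          rw [hge, hf.one _ (p.succAbove j) (by simp [hj]), hf.one _ (p.succAbove j) (by simp [hj]),
            sub_self]
        · intro y i j hij k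
          have hij' : p.succAbove i ≠ p.succAbove j := fun h => hij (Fin.succAbove_right_injective h)
          have h1 := hf.dd (p.insertNth (x p * b) y) (p.succAbove i) (p.succAbove j) hij' k
          have h2 := hf.dd (p.insertNth (x p) y) (p.succAbove i) (p.succAbove j) hij' k
          simp only [Fin.insertNth_apply_succAbove, ← Fin.insertNth_update] at h1 h2
          simp only [hge]
          linear_combination (norm := abel) h1 - h2
      have hginv : ∀ y : Fin m → C, (∀ q, y q ∈ K') → ∀ j, g (update y j (y j * b)) = g y := by
        intro y _ j
        have hpj : p ≠ p.succAbove j := (Fin.succAbove_ne p j).symm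
        have h1 := hf.dd (p.insertNth (x p) y) p (p.succAbove j) hpj b
        simp only [Fin.insertNth_apply_succAbove, Fin.insertNth_apply_same,
          Fin.update_insertNth, ← Fin.insertNth_update] at h1
        simp only [hge]
        linear_combination (norm := abel) h1
      have hgz : ∀ y : Fin m → C, (∀ q, y q ∈ K') → g y = 0 := by
        intro y hy
        choose l hl z hz using fun q => hdec (y q) (hy q)
        have e : y = fun j => l j * b ^ z j := by funext j; exact hz j
        rw [e, pow_inv_ext hb hginv z l (fun q => hLK (hl q))]
        exact ih m g hgc hn l hl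
      have h3 := hgz (fun j => x (p.succAbove j)) (fun q => hx _)
      rw [hge] at h3
      have e1 : p.insertNth (x p * b) (fun j => x (p.succAbove j)) = update x p (x p * b) := by
        rw [Fin.insertNth_eq_iff]
        constructor
        · simp
        · funext j; simp [Fin.removeNth, update_of_ne (Fin.succAbove_ne p j)]
      have e2 : p.insertNth (x p) (fun j => x (p.succAbove j)) = x := by
        rw [Fin.insertNth_eq_iff]
        constructor
        · rfl
        · rfl
      rw [e1, e2] at h3
      exact sub_eq_zero.mp h3
    choose l hl z hz using fun q => hdec (x q) (hx q)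
    have e : x = fun j => l j * b ^ z j := by funext j; exact hz j
    rw [e, pow_inv_ext hb hinv z l (fun q => hLK (hl q))]
    exact ih (m + 1) f hf (by omega) l hl

end Pool.Agent.Helper59.Split
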