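import Mathlib

set_option autoImplicit false

namespace Pool.Agent.Helper59.Split

/-- a finitely generated nilpotent `2`-group is finite. -/
theorem finite_of_fg_nilpotent (G : Type*) [Group G] [Group.IsNilpotent G] :
    Group.FG G → IsPGroup 2 G → Finite G := by
  refine Group.nilpotent_center_quotient_ind
    (P := fun G _ _ => Group.FG G → IsPGroup 2 G → Finite G) G ?_ ?_
  · intro G _ _ _ _; infer_instance
  · intro G _ _ ih hfg hp
    have h1 : Finite (G ⧸ Subgroup.center G) :=
      ih (QuotientGroup.fg _) (hp.to_quotient _)
    have h2 : (Subgroup.center G).FiniteIndex := Subgroup.finiteIndex_of_finite_quotient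
    have h3 : Group.FG (Subgroup.center G) := inferInstance
    have h4 : Finite (Subgroup.center G) := by
      let _ : CommGroup (Subgroup.center G) :=
        { (inferInstance : Group (Subgroup.center G)) with
          mul_comm := fun x y => Subtype.ext ((Subgroup.mem_center_iff.mp y.2 x.1)) }
      refine @CommGroup.finite_of_fg_isMulTorsion (Subgroup.center G) _ h3 ?_
      intro x
      rw [isOfFinOrder_iff_pow_eq_one]
      obtain ⟨k, hk⟩ := (hp.to_subgroup (Subgroup.center G)) x
      exact ⟨2 ^ k, by positivity, hk⟩
    exact Finite.of_subgroup_quotient (H := Subgroup.center G) 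

end Pool.Agent.Helper59.Split
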