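import Pool.Agent.Helper59.Split.R7
import Pool.Agent.Helper59.Split.G1

set_option autoImplicit false

namespace Pool.Agent.Helper59.Split

open scoped commutatorElement

/-! ### three subgroups -/

lemma three_step {G : Type*} [Group G] (N L : Subgroup G) [N.Normal] [L.Normal]
    (h : ⁅N, ⁅N, N⁆⁆ ≤ ⁅⁅N, N⁆, ⁅N, N⁆⁆) (hL : ⁅⁅N, N⁆, ⁅N, N⁆⁆ ≤ L) :
    ⁅⁅N, N⁆, ⁅N, N⁆⁆ ≤ ⁅L, (⊤ : Subgroup G)⁆ := by
  set M := ⁅L, (⊤ : Subgroup G)⁆ with hM
  have hbase : ⁅⁅N, ⁅N, N⁆⁆, N⁆ ≤ M := Subgroup.commutator_mono (h.trans hL) le_top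
  set π := QuotientGroup.mk' M with hπ
  have hmap : ∀ X : Subgroup G, X ≤ M ↔ X.map π = ⊥ := by
    intro X
    rw [Subgroup.map_eq_bot_iff, hπ, QuotientGroup.ker_mk']
  rw [hmap, Subgroup.map_commutator, Subgroup.map_commutator]
  apply Subgroup.commutator_commutator_eq_bot_of_rotate
  · rw [← Subgroup.map_commutator, ← Subgroup.map_commutator, ← Subgroup.map_commutator, ← hmap]
    exact hbase
  · rw [← Subgroup.map_commutator, ← Subgroup.map_commutator, ← Subgroup.map_commutator, ← hmap,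
      Subgroup.commutator_comm ⁅N, N⁆ N]
    exact hbase

lemma three_sub {G : Type*} [Group G] (hG : Group.IsNilpotent G) (N : Subgroup G) [N.Normal]
    (h : ⁅N, ⁅N, N⁆⁆ ≤ ⁅⁅N, N⁆, ⁅N, N⁆⁆) : ⁅⁅N, N⁆, ⁅N, N⁆⁆ = ⊥ := by
  obtain ⟨n, hn⟩ := Subgroup.nilpotent_iff_lowerCentralSeries.mp hG
  rw [eq_bot_iff, ← hn]
  clear hn
  induction n with
  | zero => exact le_top
  | succ n ih => exact three_step N _ h ih

/-! ### homs from the cyclic group of order 4 -/

/-- the hom from the cyclic group of order 4 determined by an element. -/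
def zm4 {M : Type*} [Monoid M] (x : M) (h : x ^ 4 = 1) : Multiplicative (ZMod 4) →* M where
  toFun i := x ^ (Multiplicative.toAdd i).val
  map_one' := by simp
  map_mul' i j := by rw [toAdd_mul, ZMod.val_add, ← pow_add, ← pow_eq_pow_mod _ h]

lemma zm4_apply {M : Type*} [Monoid M] (x : M) (h : x ^ 4 = 1) (i : Multiplicative (ZMod 4)) :
    zm4 x h i = x ^ (Multiplicative.toAdd i).val := rfl

/-! ### the splitting identity -/

section split

variable {G : Type*} [Group G]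

/-- the splitting condition of order 4. -/
def IsSplit4 (φ : MulAut G) : Prop := ∀ x : G, x * φ x * φ (φ x) * φ (φ (φ x)) = 1

lemma split_conj {ψ : MulAut G} (hψ : IsSplit4 ψ) (g : G) :
    IsSplit4 (MulAut.conj g * ψ) := by
  intro x
  have h1 := hψ (x * g)
  have h2 := hψ g
  simp only [MulAut.mul_apply, MulAut.conj_apply, map_mul, map_inv] at h1 ⊢
  have h3 : ψ (ψ (ψ g)) = (g * ψ g * ψ (ψ g))⁻¹ := by
    rw [eq_inv_iff_mul_eq_one]
    have := congrArg (fun z => (g * ψ g * ψ (ψ g))⁻¹ * z * (g * ψ g * ψ (ψ g))) h2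
    simpa [mul_assoc] using this
  rw [h3] at h1
  rw [← h1]; group

lemma split_cube {φ : MulAut G} (h4 : φ ^ 4 = 1) (hφ : IsSplit4 φ) : IsSplit4 (φ ^ 3) := by
  intro x
  have e3 : ∀ y, (φ ^ 3) y = φ (φ (φ y)) := fun y => rfl
  have e4 : ∀ y, φ (φ (φ (φ y))) = y := by
    intro y
    have := congrArg (fun α : MulAut G => α y) h4
    exact this
  simp only [e3, e4]
  have h1 := hφ x⁻¹
  simp only [map_inv] at h1
  have h2 := congrArg (fun z => x * z⁻¹ * x⁻¹) h1
  simp only [mul_inv_rev, inv_inv, inv_one, mul_one, mul_inv_cancel] at h2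
  rw [← h2]; group

end split

end Pool.Agent.Helper59.Split
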