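import Pool.Agent.Helper59.Split.G2

set_option autoImplicit false

namespace Pool.Agent.Helper59.Split

open scoped commutatorElement

section setup

set_option linter.unusedSectionVars false

variable {G : Type*} [Group G] (φ : MulAut G) (h4 : φ ^ 4 = 1)

/-- the extension of `G` by the cyclic group of order 4. -/
abbrev EG : Type _ := G ⋊[zm4 φ h4] Multiplicative (ZMod 4)

/-- the parity. -/
def par : EG φ h4 →* ℤˣ := (zm4 (-1 : ℤˣ) (by decide)).comp SemidirectProduct.rightHom

/-- the conjugation action on `G`. -/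
def act : EG φ h4 →* MulAut G :=
  SemidirectProduct.lift MulAut.conj (zm4 φ h4) (by
    intro i
    ext g x
    simp [MulAut.conj_apply])

lemma act_inl (g x : G) : act φ h4 (SemidirectProduct.inl g) x = g * x * g⁻¹ := by
  rw [act, SemidirectProduct.lift_inl, MulAut.conj_apply]

lemma inl_act (e : EG φ h4) (x : G) :
    (SemidirectProduct.inl (act φ h4 e x) : EG φ h4) = e * SemidirectProduct.inl x * e⁻¹ := by
  rw [← SemidirectProduct.inl_left_mul_inr_right e]
  simp only [map_mul, act, SemidirectProduct.lift_inl, SemidirectProduct.lift_inr,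
    MulAut.mul_apply, MulAut.conj_apply, map_inv, SemidirectProduct.inl_aut, mul_inv_rev, mul_assoc]

lemma act_split (hφ : IsSplit4 φ) {c : EG φ h4} (hc : par φ h4 c = -1) :
    IsSplit4 (act φ h4 c) := by
  have e : act φ h4 c = MulAut.conj c.left * zm4 φ h4 c.right := rfl
  have hc' : (-1 : ℤˣ) ^ (Multiplicative.toAdd c.right).val = -1 := hc
  rw [e]
  apply split_conj
  rw [zm4_apply]
  have hlt : (Multiplicative.toAdd c.right).val < 4 := ZMod.val_lt _
  generalize (Multiplicative.toAdd c.right).val = k at hc' hlt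
  interval_cases k
  · exact absurd hc' (by decide)
  · rw [pow_one]; exact hφ
  · exact absurd hc' (by decide)
  · exact split_cube h4 hφ

/-- the basic element `a`. -/
def aE : EG φ h4 := SemidirectProduct.inr (Multiplicative.ofAdd 1)

lemma par_aE : par φ h4 (aE φ h4) = -1 := by
  show (-1 : ℤˣ) ^ (Multiplicative.toAdd (Multiplicative.ofAdd (1 : ZMod 4))).val = -1
  decide

lemma par_inl (g : G) : par φ h4 (SemidirectProduct.inl g) = 1 := by
  simp [par]

lemma decomp (f : EG φ h4) : ∃ i : ℕ, f = SemidirectProduct.inl f.left * aE φ h4 ^ i := by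
  refine ⟨(Multiplicative.toAdd f.right).val, ?_⟩
  conv_lhs => rw [← SemidirectProduct.inl_left_mul_inr_right f]
  rw [aE, ← map_pow]
  congr 2
  rw [← ofAdd_nsmul, nsmul_one, ZMod.natCast_zmod_val]
  rfl

/-! ### the action on a characteristic section -/

variable (N : Subgroup G) [N.Characteristic]

lemma char_mem (α : MulAut G) {x : G} (hx : x ∈ N) : α x ∈ N := by
  have := (inferInstance : N.Characteristic).fixed α
  rw [← this] at hx
  exact hx

/-- restriction of an automorphism to a characteristic subgroup. -/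
def resN (α : MulAut G) : N →* N :=
  (α.toMonoidHom.comp N.subtype).codRestrict N (fun x => char_mem N α x.2)

lemma resN_coe (α : MulAut G) (x : N) : (resN N α x : G) = α x := rfl

/-- the module. -/
abbrev AN : Type _ := Additive (Abelianization N)

/-- the quotient map. -/
def qN (x : N) : AN N := Additive.ofMul (Abelianization.of x)

lemma qN_mul (x y : N) : qN N (x * y) = qN N x + qN N y := by
  rw [qN, map_mul]; rfl

lemma qN_inv (x : N) : qN N x⁻¹ = -qN N x := by
  rw [qN, map_inv]; rfl

lemma qN_one : qN N 1 = 0 := by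
  rw [qN, map_one]; rfl

lemma qN_surj (y : AN N) : ∃ x, y = qN N x := by
  obtain ⟨x, hx⟩ := QuotientGroup.mk_surjective (Additive.toMul y)
  exact ⟨x, by rw [qN]; exact (congrArg Additive.ofMul hx).symm⟩

lemma qN_eq {x y : N} (h : qN N x = qN N y) : (x : G)⁻¹ * y ∈ ⁅N, N⁆ := by
  have h1 : (Abelianization.of x : Abelianization N) = Abelianization.of y := h
  have h2 : x⁻¹ * y ∈ commutator N := QuotientGroup.eq.mp h1
  rw [← Subgroup.map_subtype_commutator]
  exact ⟨_, h2, rfl⟩

/-- the action. -/
def rhoN : EG φ h4 →* AddMonoid.End (AN N) where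
  toFun e := (MonoidHom.toAdditive (Abelianization.map (resN N (act φ h4 e))))
  map_one' := by
    ext y
    obtain ⟨x, rfl⟩ := qN_surj N y
    show Additive.ofMul (Abelianization.of (resN N (act φ h4 1) x)) = qN N x
    have : resN N (act φ h4 1) x = x := by
      apply Subtype.ext; rw [resN_coe, map_one]; rfl
    rw [this]; rfl
  map_mul' e f := by
    ext y
    obtain ⟨x, rfl⟩ := qN_surj N y
    show Additive.ofMul (Abelianization.of (resN N (act φ h4 (e * f)) x))
      = Additive.ofMul (Abelianization.of (resN N (act φ h4 e) (resN N (act φ h4 f) x)))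
    have : resN N (act φ h4 (e * f)) x = resN N (act φ h4 e) (resN N (act φ h4 f) x) := by
      apply Subtype.ext; rw [resN_coe, resN_coe, resN_coe, map_mul]; rfl
    rw [this]

lemma rhoN_q (e : EG φ h4) (x : N) : rhoN φ h4 N e (qN N x) = qN N (resN N (act φ h4 e) x) := rfl

lemma rhoN_split (hφ : IsSplit4 φ) (c : EG φ h4) (hc : par φ h4 c = -1) (y : AN N) :
    y + rhoN φ h4 N c y + rhoN φ h4 N c (rhoN φ h4 N c y)
      + rhoN φ h4 N c (rhoN φ h4 N c (rhoN φ h4 N c y)) = 0 := by
  obtain ⟨x, rfl⟩ := qN_surj N y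
  simp only [rhoN_q, ← qN_mul]
  rw [← qN_one N]
  congr 1
  apply Subtype.ext
  exact act_split φ h4 hφ hc x

lemma rhoN_nil [Finite G] (hp : IsPGroup 2 G) : ∃ n : ℕ, ∀ gs : List (EG φ h4), gs.length = n →
    ∀ y : AN N, gs.foldr (fun g z => rhoN φ h4 N g z - z) y = 0 := by
  have hfin : Finite (EG φ h4) := Finite.of_equiv _ SemidirectProduct.equivProd.symm
  have hE : IsPGroup 2 (EG φ h4) := by
    obtain ⟨k, hk⟩ := IsPGroup.iff_card.mp hp
    apply IsPGroup.of_card (n := k + 2)
    rw [SemidirectProduct.card, hk, Nat.card_eq_fintype_card (α := Multiplicative (ZMod 4)),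
      pow_add]
    rfl
  obtain ⟨n, hn⟩ := Subgroup.nilpotent_iff_lowerCentralSeries.mp hE.isNilpotent
  refine ⟨n, ?_⟩
  intro gs hgs y
  obtain ⟨x, rfl⟩ := qN_surj N y
  have key : ∀ gs : List (EG φ h4), ∃ z : N, gs.foldr (fun g z => rhoN φ h4 N g z - z) (qN N x)
      = qN N z ∧ (SemidirectProduct.inl (z : G) : EG φ h4)
        ∈ (⊤ : Subgroup (EG φ h4)).lowerCentralSeries gs.length := by
    intro gs
    induction gs with
    | nil => exact ⟨x, rfl, trivial⟩
    | cons g gs ih =>
      obtain ⟨z, hz1, hz2⟩ := ih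
      refine ⟨resN N (act φ h4 g) z * z⁻¹, ?_, ?_⟩
      · rw [List.foldr_cons, hz1, rhoN_q, qN_mul, qN_inv, sub_eq_add_neg]
      · rw [List.length_cons, Subgroup.lowerCentralSeries_succ]
        have : (SemidirectProduct.inl ((resN N (act φ h4 g) z * z⁻¹ : N) : G) : EG φ h4)
            = ⁅g, SemidirectProduct.inl (z : G)⁆ := by
          rw [Subgroup.coe_mul, map_mul, resN_coe, inl_act, Subgroup.coe_inv, map_inv,
            commutatorElement_def]
        rw [this, Subgroup.commutator_comm]
        exact Subgroup.commutator_mem_commutator trivial hz2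
  obtain ⟨z, hz1, hz2⟩ := key gs
  rw [hz1]
  rw [hgs, hn, Subgroup.mem_bot] at hz2
  have : z = 1 := by
    apply Subtype.ext
    apply SemidirectProduct.inl_injective (φ := zm4 φ h4)
    rw [hz2]; simp
  rw [this, qN_one]

end setup

end Pool.Agent.Helper59.Split
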