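import Pool.Agent.Helper59.Split.G3

set_option autoImplicit false

namespace Pool.Agent.Helper59.Split

open scoped commutatorElement

/-- The explicit bound. -/
def fB (d : ℕ) : ℕ := jZero d + 3

lemma inl_Tder {G : Type*} [Group G] (φ : MulAut G) (h4 : φ ^ 4 = 1) : ∀ j : ℕ,
    (derivedSeries G (j + 1)).map (SemidirectProduct.inl : G →* EG φ h4)
      ≤ Tder (par φ h4).ker j := by
  intro j
  induction j with
  | zero =>
    rw [derivedSeries_succ, derivedSeries_zero, Subgroup.map_commutator]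
    apply Subgroup.commutator_mono <;>
    · rintro _ ⟨g, _, rfl⟩
      exact par_inl φ h4 g
  | succ j ih =>
    rw [derivedSeries_succ, Subgroup.map_commutator]
    exact Subgroup.commutator_mono ih ih

/-- **Main theorem.** -/
theorem main_split {G : Type*} [Group G] (hp : IsPGroup 2 G) (hG : Group.IsNilpotent G) (d : ℕ)
    (hs : ∃ s : Finset G, s.card ≤ d ∧ Subgroup.closure (s : Set G) = ⊤)
    (φ : MulAut G) (h4 : φ ^ 4 = 1) (hφ : IsSplit4 φ) : derivedSeries G (fB d) = ⊥ := by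
  obtain ⟨s, hsd, hsc⟩ := hs
  have hfg : Group.FG G := ⟨s, hsc⟩
  have hfin : Finite G := finite_of_fg_nilpotent G hfg hp
  set n := jZero d + 1 with hn
  set N := derivedSeries G n with hN
  have hN1 : derivedSeries G (n + 1) = ⁅N, N⁆ := rfl
  have hN2 : derivedSeries G (n + 2) = ⁅⁅N, N⁆, ⁅N, N⁆⁆ := rfl
  have hNchar : ⁅N, N⁆.Characteristic := by rw [← hN1]; infer_instance
  have hNn : N.Normal := by rw [hN]; infer_instance
  -- the generating list
  set bs : List (EG φ h4) := s.toList.map (SemidirectProduct.inl : G →* EG φ h4)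
    ++ List.replicate (d - s.card) 1 with hbs
  have hlen : bs.length = d := by
    simp [hbs]; omega
  have hb : ∀ b ∈ bs, par φ h4 b = 1 := by
    intro b hb
    rcases List.mem_append.mp hb with hb | hb
    · obtain ⟨g, _, rfl⟩ := List.mem_map.mp hb
      exact par_inl φ h4 g
    · rw [List.eq_of_mem_replicate hb, map_one]
  have hL : ∀ f : EG φ h4, ∃ l ∈ Subgroup.closure {b | b ∈ bs}, ∃ i : ℕ, f = l * aE φ h4 ^ i := by
    intro f
    obtain ⟨i, hi⟩ := decomp φ h4 f
    refine ⟨SemidirectProduct.inl f.left, ?_, i, hi⟩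
    have h1 : f.left ∈ Subgroup.closure (s : Set G) := by rw [hsc]; trivial
    have h2 : Subgroup.closure (s : Set G) ≤
        (Subgroup.closure {b | b ∈ bs}).comap (SemidirectProduct.inl : G →* EG φ h4) := by
      rw [Subgroup.closure_le]
      intro g hg
      apply Subgroup.subset_closure
      exact List.mem_append_left _ (List.mem_map.mpr ⟨g, Finset.mem_toList.mpr hg, rfl⟩)
    exact h2 h1
  obtain ⟨m, hm⟩ := rhoN_nil φ h4 ⁅N, N⁆ hp
  have key := ring_part (rhoN φ h4 ⁅N, N⁆) (par φ h4) (par_aE φ h4) bs hb hL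
    (rhoN_split φ h4 ⁅N, N⁆ hφ) m hm
  rw [hlen] at key
  have hcomm : ⁅N, ⁅N, N⁆⁆ ≤ ⁅⁅N, N⁆, ⁅N, N⁆⁆ := by
    rw [Subgroup.commutator_le]
    intro g hg x hx
    have h1 : (SemidirectProduct.inl g : EG φ h4) ∈ Tder (par φ h4).ker (jZero d) :=
      inl_Tder φ h4 (jZero d) ⟨g, hg, rfl⟩
    have h2 := key _ h1 (qN ⁅N, N⁆ ⟨x, hx⟩)
    rw [rhoN_q] at h2
    have h3 := qN_eq ⁅N, N⁆ h2.symm
    rw [resN_coe, act_inl] at h3
    have h4' : ⁅g, x⁆ = x * (x⁻¹ * (g * x * g⁻¹)) * x⁻¹ := by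
      rw [commutatorElement_def]; group
    rw [h4']
    have hnorm : (⁅⁅N, N⁆, ⁅N, N⁆⁆ : Subgroup G).Normal := by
      rw [← hN2]; infer_instance
    exact hnorm.conj_mem _ h3 x
  have := three_sub hG N hcomm
  rw [← hN2] at this
  exact this

end Pool.Agent.Helper59.Split
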