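import Pool.Agent.Helper59.Split.T1b

/-!
The ring-theoretic assembly for MP_77d03c_al.
-/

set_option autoImplicit false

namespace Pool.Agent.Helper59.Split

variable {F : Type*} [Group F] {Λ : Type*} [Ring Λ]

/-- the element `1 + c²` of the ring. -/
def Xr (τ : F →* Λ) (c : F) : Λ := 1 + τ c * τ c

/-- the ideal generated by the `X_t`, `t ∈ s`. -/
def IX (τ : F →* Λ) (s : Set F) : Ideal Λ := Ideal.span {x | ∃ t ∈ s, ∃ r, x = Xr τ t * r}

lemma Xr_mul_mem (τ : F →* Λ) {s : Set F} {t : F} (ht : t ∈ s) (r : Λ) : Xr τ t * r ∈ IX τ s :=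
  Ideal.subset_span ⟨t, ht, r, rfl⟩

lemma Xr_mem (τ : F →* Λ) {s : Set F} {t : F} (ht : t ∈ s) : Xr τ t ∈ IX τ s := by
  have := Xr_mul_mem τ ht 1
  rwa [mul_one] at this

instance IX_twoSided (τ : F →* Λ) (s : Set F) : (IX τ s).IsTwoSided := by
  constructor
  intro x b hx
  induction hx using Submodule.span_induction with
  | mem x hx =>
    obtain ⟨t, ht, r, rfl⟩ := hx
    rw [mul_assoc]; exact Xr_mul_mem τ ht _
  | zero => rw [zero_mul]; exact zero_mem _
  | add x y _ _ hx hy => rw [add_mul]; exact add_mem hx hy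
  | smul c x _ hx => rw [smul_eq_mul, mul_assoc]; exact Ideal.mul_mem_left _ _ hx

lemma IX_le (τ : F →* Λ) {s : Set F} {I : Ideal Λ} [I.IsTwoSided] (h : ∀ t ∈ s, Xr τ t ∈ I) :
    IX τ s ≤ I := by
  rw [IX, Ideal.span_le]
  rintro x ⟨t, ht, r, rfl⟩
  exact Ideal.mul_mem_right _ _ (h t ht)

/-- the ideal `2 Λ`. -/
def D2 (Λ : Type*) [Ring Λ] : Ideal Λ := Ideal.span {(2 : Λ)}

lemma mem_D2 {x : Λ} : x ∈ D2 Λ ↔ ∃ y, x = 2 * y := by
  rw [D2, Ideal.mem_span_singleton']
  constructor
  · rintro ⟨y, rfl⟩; exact ⟨y, by rw [mul_two, two_mul]⟩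
  · rintro ⟨y, rfl⟩; exact ⟨y, by rw [mul_two, two_mul]⟩

instance D2_twoSided : (D2 Λ).IsTwoSided := by
  constructor
  intro x b hx
  obtain ⟨y, rfl⟩ := mem_D2.mp hx
  exact mem_D2.mpr ⟨y * b, by rw [mul_assoc]⟩

/-- the standing hypotheses. -/
structure Hyp (τ : F →* Λ) (ε : F →* ℤˣ) : Prop where
  span : AddSubgroup.closure (Set.range τ) = ⊤
  rel : ∀ c, ε c = -1 → τ c * τ c * τ c = τ c * τ c - τ c + 1
  nil : ∃ n : ℕ, ∀ gs : List F, gs.length = n →
    ∀ y : Λ, gs.foldr (fun g z => (ε g : ℤ) • (τ g * z) - z) y = 0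

section

variable {τ : F →* Λ} {ε : F →* ℤˣ} (H : Hyp τ ε)
include H

lemma Hyp.T1r {a : F} (ha : ε a = -1) (bs : List F) (hb : ∀ b ∈ bs, ε b = 1)
    (hgen : ∀ k, ε k = 1 → ∃ l ∈ Subgroup.closure {b | b ∈ bs}, ∃ h ∈ Hsub ε, k = l * h) :
    ∀ l : List F, l.length = bs.length + 1 →
      l.foldr (fun g z => Xr τ a * (τ g * z)) (Xr τ a) ∈ D2 Λ := by
  let _ : DistribMulAction F (Λ ⧸ D2 Λ) := DistribMulAction.compHom _ τ
  have hsm : ∀ (g : F) (x : Λ), g • (Submodule.Quotient.mk x : Λ ⧸ D2 Λ)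
      = Submodule.Quotient.mk (τ g * x) := fun _ _ => rfl
  have h2 : ∀ x : Λ ⧸ D2 Λ, x + x = 0 := by
    intro x
    induction x using Submodule.Quotient.induction_on with
    | H x =>
      rw [← Submodule.Quotient.mk_add, Submodule.Quotient.mk_eq_zero]
      exact mem_D2.mpr ⟨x, (two_mul x).symm⟩
  have hq : QAll (Λ ⧸ D2 Λ) ε := by
    intro c hc x
    induction x using Submodule.Quotient.induction_on with
    | H x =>
      simp only [hsm, ← Submodule.Quotient.mk_sub, ← Submodule.Quotient.mk_add]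
      congr 1
      have := congrArg (· * x) (H.rel c hc)
      simp only [add_mul, sub_mul, one_mul, mul_assoc] at this
      exact this
  obtain ⟨n, hn⟩ := H.nil
  have hnil : ∀ gs : List F, gs.length = n → ∀ x : Λ ⧸ D2 Λ,
      gs.foldr (fun g z => g • z - z) x = 0 := by
    intro gs hgs x
    induction x using Submodule.Quotient.induction_on with
    | H x =>
      have key : ∀ gs : List F, gs.foldr (fun g z => g • z - z)
          (Submodule.Quotient.mk x : Λ ⧸ D2 Λ)
          = Submodule.Quotient.mk (gs.foldr (fun g z => (ε g : ℤ) • (τ g * z) - z) x) := by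
        intro gs
        induction gs with
        | nil => rfl
        | cons g gs ih =>
          rw [List.foldr_cons, List.foldr_cons, ih, hsm]
          rcases Int.units_eq_one_or (ε g) with hg | hg
          · rw [hg, Units.val_one, one_smul]; rfl
          · rw [hg, Units.val_neg, Units.val_one, neg_one_smul,
              Submodule.Quotient.mk_sub, Submodule.Quotient.mk_neg]
            congr 1
            rw [eq_neg_iff_add_eq_zero, h2]
      rw [key gs, hn gs hgs]; rfl
  have main := T1 h2 hq ha hnil bs hb hgen (Submodule.Quotient.mk 1)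
  intro l hl
  have h3 := main l hl
  have hX : ∀ x : Λ, Xop a (Submodule.Quotient.mk x : Λ ⧸ D2 Λ)
      = Submodule.Quotient.mk (Xr τ a * x) := by
    intro x
    simp only [Xop, hsm, ← Submodule.Quotient.mk_add, Xr, add_mul, one_mul, mul_assoc]
  have h4 : ∀ l : List F, Wd a l (Xop a (Submodule.Quotient.mk 1 : Λ ⧸ D2 Λ))
      = Submodule.Quotient.mk (l.foldr (fun g z => Xr τ a * (τ g * z)) (Xr τ a)) := by
    intro l
    induction l with
    | nil => rw [Wd_nil, hX, mul_one]; rfl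
    | cons g l ih => rw [Wd_cons, ih, hsm, hX]; rfl
  rw [h4 l, Submodule.Quotient.mk_eq_zero] at h3
  exact h3

end

end Pool.Agent.Helper59.Split
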