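import Pool.Agent.Helper59.Split.R1

set_option autoImplicit false

namespace Pool.Agent.Helper59.Split

variable {F : Type*} [Group F] {Λ : Type*} [Ring Λ]

/-- all words of length `j` map `z` into `2 Λ`. -/
def PW (X : Λ) (j : ℕ) (z : Λ) : Prop :=
  ∀ l : List Λ, l.length = j → l.foldr (fun x z => X * (x * z)) z ∈ D2 Λ

lemma foldr_add' (X : Λ) (l : List Λ) (y z : Λ) : l.foldr (fun x z => X * (x * z)) (y + z)
    = l.foldr (fun x z => X * (x * z)) y + l.foldr (fun x z => X * (x * z)) z := by
  induction l with
  | nil => rfl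
  | cons x l ih => simp only [List.foldr_cons, ih, mul_add]

lemma foldr_neg' (X : Λ) (l : List Λ) (z : Λ) : l.foldr (fun x z => X * (x * z)) (-z)
    = -l.foldr (fun x z => X * (x * z)) z := by
  induction l with
  | nil => rfl
  | cons x l ih => simp only [List.foldr_cons, ih, mul_neg]

lemma foldr_right' (X : Λ) (l : List Λ) (z r : Λ) : l.foldr (fun x z => X * (x * z)) (z * r)
    = l.foldr (fun x z => X * (x * z)) z * r := by
  induction l with
  | nil => rfl
  | cons x l ih => simp only [List.foldr_cons, ih, mul_assoc]

lemma PW.add {X : Λ} {j : ℕ} {y z : Λ} (hy : PW X j y) (hz : PW X j z) : PW X j (y + z) := by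
  intro l hl
  rw [foldr_add']
  exact add_mem (hy l hl) (hz l hl)

lemma PW.zero {X : Λ} {j : ℕ} : PW X j 0 := by
  intro l hl
  have := foldr_right' X l 0 0
  rw [mul_zero, mul_zero] at this
  rw [this]; exact zero_mem _

lemma PW.neg {X : Λ} {j : ℕ} {z : Λ} (hz : PW X j z) : PW X j (-z) := by
  intro l hl
  rw [foldr_neg']
  exact neg_mem (hz l hl)

lemma PW.right {X : Λ} {j : ℕ} {z : Λ} (hz : PW X j z) (r : Λ) : PW X j (z * r) := by
  intro l hl
  rw [foldr_right']
  exact Ideal.mul_mem_right _ _ (hz l hl)

lemma PW.left {X : Λ} {j : ℕ} {z : Λ} (hz : PW X j z) (u : Λ) : PW X j (u * z) := by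
  intro l hl
  rcases List.eq_nil_or_concat l with rfl | ⟨l', x, rfl⟩
  · exact Ideal.mul_mem_left _ _ (hz [] hl)
  · have := hz (l'.concat (x * u)) (by simpa using hl)
    simpa only [List.concat_eq_append, List.foldr_append, List.foldr_cons, List.foldr_nil,
      mul_assoc] using this

lemma PW.step {X : Λ} {j : ℕ} {z : Λ} (hz : PW X (j + 1) z) (r : Λ) : PW X j (X * (r * z)) := by
  intro l hl
  have := hz (l.concat r) (by simpa using hl)
  simpa only [List.concat_eq_append, List.foldr_append, List.foldr_cons, List.foldr_nil] using this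

lemma PW_of_group (τ : F →* Λ) (hspan : AddSubgroup.closure (Set.range τ) = ⊤) (X : Λ) :
    ∀ (m : ℕ) (z : Λ), (∀ l : List F, l.length = m →
      l.foldr (fun g z => X * (τ g * z)) z ∈ D2 Λ) → PW X m z := by
  intro m
  induction m with
  | zero =>
    intro z h l hl
    rw [List.length_eq_zero_iff] at hl
    subst hl
    exact h [] rfl
  | succ m ih =>
    intro z h l hl
    rcases List.eq_nil_or_concat l with rfl | ⟨l', x, rfl⟩
    · simp at hl
    · have key : ∀ x : Λ, PW X m (X * (x * z)) := by
        intro x
        have hx : x ∈ AddSubgroup.closure (Set.range τ) := by rw [hspan]; trivial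
        induction hx using AddSubgroup.closure_induction with
        | mem x hx =>
          obtain ⟨g, rfl⟩ := hx
          apply ih
          intro l hl
          have := h (l.concat g) (by simpa using hl)
          simpa only [List.concat_eq_append, List.foldr_append, List.foldr_cons,
            List.foldr_nil] using this
        | zero => rw [zero_mul, mul_zero]; exact PW.zero
        | add x y _ _ hx hy => rw [add_mul, mul_add]; exact hx.add hy
        | neg x _ hx => rw [neg_mul, mul_neg]; exact hx.neg
      have := key x l' (by simpa using hl)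
      simpa only [List.concat_eq_append, List.foldr_append, List.foldr_cons,
        List.foldr_nil] using this

lemma PW_ideal (τ : F →* Λ) (a : F) : ∀ (j : ℕ) (K : Ideal Λ),
    (∀ z ∈ K, PW (Xr τ a) j z) → IX τ {a} ^ j * K ≤ D2 Λ := by
  intro j
  induction j with
  | zero =>
    intro K hK
    rw [Submodule.pow_zero, Ideal.one_eq_top, Ideal.top_mul]
    intro z hz
    exact hK z hz [] rfl
  | succ j ih =>
    intro K hK
    rw [Submodule.pow_succ, Ideal.mul_assoc]
    apply ih
    intro z hz
    induction hz using Submodule.mul_induction_on' with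
    | mem_mul_mem i hi k hk =>
      induction hi using Submodule.span_induction with
      | mem x hx =>
        obtain ⟨t, ht, r, rfl⟩ := hx
        rw [Set.mem_singleton_iff] at ht
        subst ht
        rw [mul_assoc]
        exact (hK k hk).step r
      | zero => rw [zero_mul]; exact PW.zero
      | add x y _ _ hx hy => rw [add_mul]; exact hx.add hy
      | smul c x _ hx => rw [smul_eq_mul, mul_assoc]; exact hx.left c
    | add x _ y _ hx hy => exact hx.add hy

section

variable {τ : F →* Λ} {ε : F →* ℤˣ} (H : Hyp τ ε)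
include H

lemma Hyp.IX_pow_le {a : F} (ha : ε a = -1) (bs : List F) (hb : ∀ b ∈ bs, ε b = 1)
    (hgen : ∀ k, ε k = 1 → ∃ l ∈ Subgroup.closure {b | b ∈ bs}, ∃ h ∈ Hsub ε, k = l * h) :
    IX τ {a} ^ (bs.length + 2) ≤ D2 Λ := by
  rw [Submodule.pow_succ]
  apply PW_ideal
  intro z hz
  have h0 : PW (Xr τ a) (bs.length + 1) (Xr τ a) :=
    PW_of_group τ H.span _ _ _ (H.T1r ha bs hb hgen)
  induction hz using Submodule.span_induction with
  | mem x hx =>
    obtain ⟨t, ht, r, rfl⟩ := hx
    rw [Set.mem_singleton_iff] at ht
    subst ht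
    exact h0.right r
  | zero => exact PW.zero
  | add x y _ _ hx hy => exact hx.add hy
  | smul c x _ hx => exact hx.left c

end

end Pool.Agent.Helper59.Split
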