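import Pool.Agent.Helper59.Split.R2

set_option autoImplicit false

namespace Pool.Agent.Helper59.Split

variable {F : Type*} [Group F] {Λ : Type*} [Ring Λ]

lemma sup_pow_le (Φ Ψ : Ideal Λ) [Φ.IsTwoSided] [Ψ.IsTwoSided] :
    ∀ n m : ℕ, (Φ ⊔ Ψ) ^ (n + m) ≤ Φ ^ n ⊔ Ψ ^ m := by
  intro n
  induction n with
  | zero =>
    intro m
    rw [Submodule.pow_zero, Ideal.one_eq_top, top_sup_eq]; exact le_top
  | succ n ihn =>
    intro m
    induction m with
    | zero => rw [Submodule.pow_zero, Ideal.one_eq_top, sup_top_eq]; exact le_top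
    | succ m ihm =>
      rw [← Nat.add_assoc, Submodule.pow_succ, Ideal.mul_sup]
      apply sup_le
      · have h1 : (Φ ⊔ Ψ) ^ (n + 1 + m) ≤ Φ ^ n ⊔ Ψ ^ (m + 1) := by
          rw [show n + 1 + m = n + (m + 1) by ring]; exact ihn (m + 1)
        refine (Ideal.mul_mono h1 le_rfl).trans ?_
        rw [Ideal.sup_mul, ← Submodule.pow_succ]
        exact sup_le_sup le_rfl Ideal.mul_le_left
      · refine (Ideal.mul_mono ihm le_rfl).trans ?_
        rw [Ideal.sup_mul, ← Submodule.pow_succ]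
        exact sup_le_sup Ideal.mul_le_left le_rfl

lemma IX_list_pow (τ : F →* Λ) (e : ℕ) (ts : List F) (h : ∀ t ∈ ts, IX τ {t} ^ e ≤ D2 Λ) :
    IX τ {t | t ∈ ts} ^ (e * ts.length + 1) ≤ D2 Λ := by
  induction ts with
  | nil =>
    have : IX τ {t | t ∈ ([] : List F)} = ⊥ := by
      rw [eq_bot_iff, IX, Ideal.span_le]
      rintro x ⟨t, ht, _⟩
      simp at ht
    rw [this]
    simp
  | cons t ts ih =>
    have h1 : IX τ {s | s ∈ t :: ts} ≤ IX τ {t} ⊔ IX τ {s | s ∈ ts} := by
      rw [IX, Ideal.span_le]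
      rintro x ⟨s, hs, r, rfl⟩
      rcases List.mem_cons.mp hs with rfl | hs
      · exact Ideal.mem_sup_left (Xr_mul_mem τ (Set.mem_singleton _) r)
      · exact Ideal.mem_sup_right (Xr_mul_mem τ hs r)
    have h2 : e * (t :: ts).length + 1 = e + (e * ts.length + 1) := by
      rw [List.length_cons]; ring
    rw [h2]
    refine (Ideal.pow_right_mono h1 _).trans ((sup_pow_le _ _ _ _).trans ?_)
    exact sup_le (h t List.mem_cons_self) (ih (fun s hs => h s (List.mem_cons_of_mem _ hs)))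

/-! ### the group theoretic lemmas -/

section grp

variable {U : Type*} [Group U] (σ : F →* U) (z : U) (hz : z * z = 1) (hzc : ∀ u, z * u = u * z)
  (a : F) (h0 : σ a * σ a = z)

include h0 in
lemma Z_iff (l : F) : σ (l * a) * σ (l * a) = z ↔ σ a * σ l = (σ l)⁻¹ * σ a := by
  rw [← h0, map_mul, ← mul_assoc, mul_left_inj, mul_assoc, ← eq_inv_mul_iff_mul_eq]

include h0 in
lemma G1 (bs : List F) (h1 : ∀ b ∈ bs, σ (b * a) * σ (b * a) = z)
    (h2 : ∀ b ∈ bs, ∀ b' ∈ bs, σ (b * b' * a) * σ (b * b' * a) = z) :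
    ∀ l ∈ Subgroup.closure {b | b ∈ bs}, σ (l * a) * σ (l * a) = z := by
  have hcomm : ∀ k l : F, σ a * σ k = (σ k)⁻¹ * σ a → σ a * σ l = (σ l)⁻¹ * σ a →
      σ a * σ (k * l) = (σ (k * l))⁻¹ * σ a → σ k * σ l = σ l * σ k := by
    intro k l hk hl hkl
    rw [map_mul, ← mul_assoc, hk, mul_assoc, hl, ← mul_assoc, mul_left_inj, mul_inv_rev] at hkl
    have := congrArg (fun x => x⁻¹) hkl
    simp only [mul_inv_rev, inv_inv] at this
    exact this.symm
  have hbb : ∀ b ∈ bs, ∀ b' ∈ bs, Commute (σ b) (σ b') := by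
    intro b hb b' hb'
    exact hcomm b b' ((Z_iff σ z a h0 b).mp (h1 b hb)) ((Z_iff σ z a h0 b').mp (h1 b' hb'))
      ((Z_iff σ z a h0 _).mp (h2 b hb b' hb'))
  have hlb : ∀ l ∈ Subgroup.closure {b | b ∈ bs}, ∀ b ∈ bs, Commute (σ l) (σ b) := by
    intro l hl
    induction hl using Subgroup.closure_induction with
    | mem x hx => exact hbb x hx
    | one => intro b hb; rw [map_one]; exact Commute.one_left _
    | mul x y _ _ hx hy => intro b hb; rw [map_mul]; exact (hx b hb).mul_left (hy b hb)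
    | inv x _ hx => intro b hb; rw [map_inv]; exact (hx b hb).inv_left
  have hll : ∀ l ∈ Subgroup.closure {b | b ∈ bs}, ∀ m ∈ Subgroup.closure {b | b ∈ bs},
      Commute (σ l) (σ m) := by
    intro l hl m hm
    induction hm using Subgroup.closure_induction with
    | mem x hx => exact hlb l hl x hx
    | one => rw [map_one]; exact Commute.one_right _
    | mul x y _ _ hx hy => rw [map_mul]; exact hx.mul_right hy
    | inv x _ hx => rw [map_inv]; exact hx.inv_right
  intro l hl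
  rw [Z_iff σ z a h0]
  induction hl using Subgroup.closure_induction with
  | mem x hx => exact (Z_iff σ z a h0 x).mp (h1 x hx)
  | one => simp
  | mul x y hx' hy' hx hy =>
    have hc := hll x hx' y hy'
    rw [map_mul, ← mul_assoc, hx, mul_assoc, hy, ← mul_assoc, hc.eq, mul_inv_rev]
  | inv x _ hx =>
    rw [map_inv, inv_inv, ← inv_mul_eq_iff_eq_mul, ← mul_assoc, ← eq_mul_inv_iff_mul_eq, inv_inv]
    exact hx.symm

include h0 in
lemma G2 {ε : F →* ℤˣ} (ha : ε a = -1) (h : ∀ c, ε c = -1 → σ c * σ c = z) :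
    ∀ k ∈ ⁅ε.ker, ε.ker⁆, σ k = 1 := by
  have hZ : ∀ k, ε k = 1 → σ a * σ k = (σ k)⁻¹ * σ a := by
    intro k hk
    rw [← Z_iff σ z a h0]
    exact h _ (by rw [map_mul, hk, ha, one_mul])
  have hcomm : ∀ k l : F, ε k = 1 → ε l = 1 → σ k * σ l = σ l * σ k := by
    intro k l hk hl
    have hkl := hZ (k * l) (by rw [map_mul, hk, hl, one_mul])
    rw [map_mul, ← mul_assoc, hZ k hk, mul_assoc, hZ l hl, ← mul_assoc, mul_left_inj,
      mul_inv_rev] at hkl
    have := congrArg (fun x => x⁻¹) hkl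
    simp only [mul_inv_rev, inv_inv] at this
    exact this.symm
  have hle : ⁅ε.ker, ε.ker⁆ ≤ σ.ker := by
    rw [Subgroup.commutator_le]
    intro k hk l hl
    rw [MonoidHom.mem_ker, map_commutatorElement, commutatorElement_eq_one_iff_mul_comm]
    exact hcomm k l hk hl
  intro k hk
  exact hle hk

end grp

end Pool.Agent.Helper59.Split
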