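import Pool.Agent.Helper59.Split.R3

set_option autoImplicit false

namespace Pool.Agent.Helper59.Split

variable {F : Type*} [Group F] {Λ : Type*} [Ring Λ]

lemma inv_rel {E E' : Λ} (h : E * E' = 1) (r : E * E * E = E * E - E + 1) :
    E' = E * E - E + 1 := by
  have := congrArg (· * E') r
  simp only [add_mul, sub_mul, one_mul, mul_assoc, h, mul_one] at this
  rw [this]; abel

/-- the induced map to the units of the quotient ring. -/
noncomputable def sg (τ : F →* Λ) (I : Ideal Λ) [I.IsTwoSided] : F →* (Λ ⧸ I)ˣ :=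
  ((Ideal.Quotient.mk I : Λ →* Λ ⧸ I).comp τ).toHomUnits

lemma sg_coe (τ : F →* Λ) (I : Ideal Λ) [I.IsTwoSided] (g : F) :
    ((sg τ I g : (Λ ⧸ I)ˣ) : Λ ⧸ I) = Ideal.Quotient.mk I (τ g) := rfl

lemma sg_sq (τ : F →* Λ) (I : Ideal Λ) [I.IsTwoSided] (c : F) :
    sg τ I c * sg τ I c = -1 ↔ Xr τ c ∈ I := by
  rw [Units.ext_iff, Units.val_mul, sg_coe, Units.val_neg, Units.val_one,
    ← Ideal.Quotient.eq_zero_iff_mem, Xr, map_add, map_mul, map_one, add_comm,
    ← eq_neg_iff_add_eq_zero]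

/-- the types -/
def types (a : F) (bs : List F) : List F :=
  a :: (bs.map (fun b => b * a) ++ (bs ×ˢ bs).map (fun p => p.1 * p.2 * a))

lemma types_length (a : F) (bs : List F) :
    (types a bs).length = 1 + bs.length + bs.length * bs.length := by
  simp [types, List.length_product]; ring

section

variable {τ : F →* Λ} {ε : F →* ℤˣ} (H : Hyp τ ε)

lemma eps_types {a : F} (ha : ε a = -1) (bs : List F) (hb : ∀ b ∈ bs, ε b = 1) :
    ∀ t ∈ types a bs, ε t = -1 := by
  intro t ht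
  rcases List.mem_cons.mp ht with rfl | ht
  · exact ha
  · rcases List.mem_append.mp ht with ht | ht
    · obtain ⟨b, hb', rfl⟩ := List.mem_map.mp ht
      rw [map_mul, hb b hb', ha, one_mul]
    · obtain ⟨p, hp, rfl⟩ := List.mem_map.mp ht
      obtain ⟨h1, h2⟩ := List.mem_product.mp hp
      rw [map_mul, map_mul, hb _ h1, hb _ h2, ha, one_mul, one_mul]

/-- F2 -/
lemma Xr_mem_types {a : F} (ha : ε a = -1) (bs : List F) (hb : ∀ b ∈ bs, ε b = 1)
    (hL : ∀ f : F, ∃ l ∈ Subgroup.closure {b | b ∈ bs}, ∃ i : ℕ, f = l * a ^ i)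
    (c : F) (hc : ε c = -1) : Xr τ c ∈ IX τ {t | t ∈ types a bs} := by
  set I := IX τ {t | t ∈ types a bs} with hI
  have h0 : sg τ I a * sg τ I a = -1 := by
    rw [sg_sq]; exact Xr_mem τ List.mem_cons_self
  have h1 : ∀ b ∈ bs, sg τ I (b * a) * sg τ I (b * a) = -1 := by
    intro b hb'
    rw [sg_sq]
    refine Xr_mem τ (List.mem_cons_of_mem _ (List.mem_append_left _ ?_))
    exact List.mem_map.mpr ⟨b, hb', rfl⟩
  have h2 : ∀ b ∈ bs, ∀ b' ∈ bs, sg τ I (b * b' * a) * sg τ I (b * b' * a) = -1 := by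
    intro b hb1 b' hb2
    rw [sg_sq]
    refine Xr_mem τ (List.mem_cons_of_mem _ (List.mem_append_right _ ?_))
    exact List.mem_map.mpr ⟨(b, b'), List.mem_product.mpr ⟨hb1, hb2⟩, rfl⟩
  have key := G1 (sg τ I) (-1) a h0 bs h1 h2
  obtain ⟨l, hl, i, rfl⟩ := hL c
  have hl1 : ε l = 1 := by
    have : Subgroup.closure {b | b ∈ bs} ≤ ε.ker := by
      rw [Subgroup.closure_le]
      intro b hb'
      exact hb b hb'
    exact this hl
  have hi : Odd i := by
    by_contra hi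
    rw [Nat.not_odd_iff_even] at hi
    rw [map_mul, map_pow, hl1, ha, hi.neg_one_pow, one_mul] at hc
    exact absurd hc (by decide)
  obtain ⟨j, rfl⟩ := hi
  rw [← sg_sq]
  have h3 : sg τ I (l * a ^ (2 * j + 1)) = sg τ I (l * a) * (-1) ^ j := by
    rw [map_mul, map_pow, pow_succ, pow_mul, pow_two, h0, map_mul, mul_assoc]
    congr 1
    rcases Nat.even_or_odd j with hj | hj
    · rw [hj.neg_one_pow, one_mul, mul_one]
    · rw [hj.neg_one_pow, neg_one_mul, mul_neg_one]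
  rw [h3]
  rcases Nat.even_or_odd j with hj | hj
  · rw [hj.neg_one_pow, mul_one, key l hl]
  · rw [hj.neg_one_pow, mul_neg_one, neg_mul_neg, key l hl]

include H in
/-- F4 -/
lemma Hyp.J_pow_le {a : F} (ha : ε a = -1) (bs : List F) (hb : ∀ b ∈ bs, ε b = 1)
    (hL : ∀ f : F, ∃ l ∈ Subgroup.closure {b | b ∈ bs}, ∃ i : ℕ, f = l * a ^ i) :
    IX τ {c | ε c = -1} ^ ((bs.length + 2) * (1 + bs.length + bs.length * bs.length) + 1)
      ≤ D2 Λ := by
  have hgen : ∀ k, ε k = 1 → ∃ l ∈ Subgroup.closure {b | b ∈ bs}, ∃ h ∈ Hsub ε, k = l * h := by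
    intro k hk
    obtain ⟨l, hl, i, rfl⟩ := hL k
    refine ⟨l, hl, a ^ i, ?_, rfl⟩
    have hl1 : ε l = 1 := by
      have : Subgroup.closure {b | b ∈ bs} ≤ ε.ker := by
        rw [Subgroup.closure_le]
        intro b hb'
        exact hb b hb'
      exact this hl
    have hi : Even i := by
      by_contra hi
      rw [Nat.not_even_iff_odd] at hi
      rw [map_mul, map_pow, hl1, ha, hi.neg_one_pow, one_mul] at hk
      exact absurd hk (by decide)
    obtain ⟨j, rfl⟩ := hi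
    rw [← two_mul, pow_mul, pow_two]
    exact pow_mem (sq_mem_Hsub ha) j
  rw [← types_length a bs]
  refine (Ideal.pow_right_mono ?_ _).trans (IX_list_pow τ (bs.length + 2) (types a bs) ?_)
  · exact IX_le τ (fun c hc => Xr_mem_types ha bs hb hL c hc)
  · intro t ht
    exact H.IX_pow_le (eps_types ha bs hb t ht) bs hb hgen

include H in
/-- F5 -/
lemma Hyp.two_Xr_mem {a : F} (ha : ε a = -1) (c : F) (hc : ε c = -1) :
    2 * Xr τ c ∈ IX τ {a} := by
  have hX : Xr τ a ∈ IX τ {a} := Xr_mem τ (Set.mem_singleton a)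
  have hca : ε (c * a * a) = -1 := by
    rw [map_mul, map_mul, hc, ha, neg_mul_neg, one_mul, mul_neg_one]
  have r1 := H.rel c hc
  have r2 := H.rel (c * a * a) hca
  have r3 := H.rel a ha
  have e : 2 * Xr τ c = τ c * (Xr τ a * τ c) + τ c * τ c * Xr τ a + τ c * Xr τ a
      + Xr τ a * τ c⁻¹ - τ c * Xr τ a * (τ c * Xr τ a) := by
    have i1 : τ c * τ c⁻¹ = 1 := by rw [← map_mul, mul_inv_cancel, map_one]
    have i2 : τ (c * a * a) * τ (c * a * a)⁻¹ = 1 := by rw [← map_mul, mul_inv_cancel, map_one]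
    have hC : τ c⁻¹ = τ c * τ c - τ c + 1 := inv_rel i1 r1
    have hE : τ (c * a * a)⁻¹ = τ (c * a * a) * τ (c * a * a) - τ (c * a * a) + 1 :=
      inv_rel i2 r2
    have h4 : τ a * τ a * (τ a * τ a) = 1 := by
      have h5 : τ a * (τ a * τ a * τ a) = τ a * (τ a * τ a - τ a + 1) := by rw [r3]
      have h6 : τ a * τ a * (τ a * τ a) = τ a * (τ a * τ a * τ a) := by noncomm_ring
      rw [h6, h5]
      have h7 : τ a * (τ a * τ a - τ a + 1) = τ a * τ a * τ a - τ a * τ a + τ a := by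
        noncomm_ring
      rw [h7, r3]; abel
    have h8 : τ (c * a * a)⁻¹ = τ a * τ a * τ c⁻¹ := by
      have : (c * a * a)⁻¹ = (a * a)⁻¹ * c⁻¹ := by group
      rw [this, map_mul]
      congr 1
      have h9 : τ (a * a)⁻¹ * (τ a * τ a) = 1 := by
        rw [← map_mul, ← map_mul, inv_mul_cancel, map_one]
      calc τ (a * a)⁻¹ = τ (a * a)⁻¹ * (τ a * τ a * (τ a * τ a)) := by rw [h4, mul_one]
        _ = τ a * τ a := by rw [← mul_assoc, h9, one_mul]
    rw [h8] at hE
    simp only [map_mul] at hE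
    simp only [Xr]
    linear_combination (norm := noncomm_ring) -hE - hC
  rw [e]
  refine sub_mem (add_mem (add_mem (add_mem ?_ ?_) ?_) ?_) ?_
  · exact Ideal.mul_mem_left _ _ (Ideal.mul_mem_right _ _ hX)
  · exact Ideal.mul_mem_left _ _ hX
  · exact Ideal.mul_mem_left _ _ hX
  · exact Ideal.mul_mem_right _ _ hX
  · exact Ideal.mul_mem_left _ _ (Ideal.mul_mem_left _ _ hX)

/-- F1 -/
lemma comm_mem {a : F} (ha : ε a = -1) : ∀ k ∈ ⁅ε.ker, ε.ker⁆, τ k - 1 ∈ IX τ {c | ε c = -1} := by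
  intro k hk
  set I := IX τ {c | ε c = -1} with hI
  have h := G2 (sg τ I) (-1) a ((sg_sq τ I a).mpr (Xr_mem τ ha)) ha
    (fun c hc => (sg_sq τ I c).mpr (Xr_mem τ hc)) k hk
  rw [Units.ext_iff, sg_coe, Units.val_one] at h
  rw [← Ideal.Quotient.eq_zero_iff_mem, map_sub, h, map_one, sub_self]

end

end Pool.Agent.Helper59.Split
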