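import Pool.Agent.Helper59.Split.R4

set_option autoImplicit false

namespace Pool.Agent.Helper59.Split

variable {F : Type*} [Group F] {Λ : Type*} [Ring Λ]

section

variable {τ : F →* Λ} {ε : F →* ℤˣ} (H : Hyp τ ε) {a : F} (ha : ε a = -1)
include H ha

lemma Hyp.eight_group (g k : F) :
    8 * (Xr τ a * ((τ g - 1) * (Xr τ a * ((τ k - 1) * Xr τ a)))) = 0 := by
  let _ : DistribMulAction F Λ := DistribMulAction.compHom Λ τ
  have hsm : ∀ (g : F) (x : Λ), g • x = τ g * x := fun _ _ => rfl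
  have hq : QAll Λ ε := by
    intro c hc x
    simp only [hsm]
    have := congrArg (· * x) (H.rel c hc)
    simp only [add_mul, sub_mul, one_mul, mul_assoc] at this
    exact this
  have hfix : a • Xr τ a = Xr τ a := by
    rw [hsm, Xr, mul_add, mul_one, ← mul_assoc, H.rel a ha]; abel
  have key := eight_E_E hq ha hfix g k
  have hX : ∀ x : Λ, Xop a x = Xr τ a * x := by
    intro x
    simp only [Xop, hsm, Xr, add_mul, one_mul, mul_assoc]
  simp only [Eop, hX, hsm, zsmul_eq_mul, ← sub_one_mul] at key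
  exact_mod_cast key

end

/-- the augmentation -/
def Dlt (τ : F →* Λ) : AddSubgroup Λ := AddSubgroup.closure {x | ∃ g, x = τ g - 1}

lemma Dlt_left {τ : F →* Λ} (hspan : AddSubgroup.closure (Set.range τ) = ⊤) {δ : Λ}
    (hδ : δ ∈ Dlt τ) (r : Λ) : r * δ ∈ Dlt τ := by
  have hr : r ∈ AddSubgroup.closure (Set.range τ) := by rw [hspan]; trivial
  induction hr using AddSubgroup.closure_induction with
  | mem x hx =>
    obtain ⟨u, rfl⟩ := hx
    induction hδ using AddSubgroup.closure_induction with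
    | mem x hx =>
      obtain ⟨g, rfl⟩ := hx
      have : τ u * (τ g - 1) = (τ (u * g) - 1) - (τ u - 1) := by rw [map_mul]; noncomm_ring
      rw [this]
      exact sub_mem (AddSubgroup.subset_closure ⟨_, rfl⟩) (AddSubgroup.subset_closure ⟨_, rfl⟩)
    | zero => rw [mul_zero]; exact zero_mem _
    | add x y _ _ hx hy => rw [mul_add]; exact add_mem hx hy
    | neg x _ hx => rw [mul_neg]; exact neg_mem hx
  | zero => rw [zero_mul]; exact zero_mem _
  | add x y _ _ hx hy => rw [add_mul]; exact add_mem hx hy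
  | neg x _ hx => rw [neg_mul]; exact neg_mem hx

lemma Dlt_right {τ : F →* Λ} (hspan : AddSubgroup.closure (Set.range τ) = ⊤) {δ : Λ}
    (hδ : δ ∈ Dlt τ) (r : Λ) : δ * r ∈ Dlt τ := by
  have hr : r ∈ AddSubgroup.closure (Set.range τ) := by rw [hspan]; trivial
  induction hr using AddSubgroup.closure_induction with
  | mem x hx =>
    obtain ⟨u, rfl⟩ := hx
    induction hδ using AddSubgroup.closure_induction with
    | mem x hx =>
      obtain ⟨g, rfl⟩ := hx
      have : (τ g - 1) * τ u = (τ (g * u) - 1) - (τ u - 1) := by rw [map_mul]; noncomm_ring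
      rw [this]
      exact sub_mem (AddSubgroup.subset_closure ⟨_, rfl⟩) (AddSubgroup.subset_closure ⟨_, rfl⟩)
    | zero => rw [zero_mul]; exact zero_mem _
    | add x y _ _ hx hy => rw [add_mul]; exact add_mem hx hy
    | neg x _ hx => rw [neg_mul]; exact neg_mem hx
  | zero => rw [mul_zero]; exact zero_mem _
  | add x y _ _ hx hy => rw [mul_add]; exact add_mem hx hy
  | neg x _ hx => rw [mul_neg]; exact neg_mem hx

lemma eight_comm (c x : Λ) : 8 * (c * x) = c * (8 * x) := by noncomm_ring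

section

variable {τ : F →* Λ} {ε : F →* ℤˣ} (H : Hyp τ ε) {a : F} (ha : ε a = -1)
include H ha

lemma Hyp.eight_Dlt {δ δ' : Λ} (hδ : δ ∈ Dlt τ) (hδ' : δ' ∈ Dlt τ) :
    8 * (Xr τ a * (δ * (Xr τ a * (δ' * Xr τ a)))) = 0 := by
  induction hδ using AddSubgroup.closure_induction with
  | mem x hx =>
    obtain ⟨g, rfl⟩ := hx
    induction hδ' using AddSubgroup.closure_induction with
    | mem x hx => obtain ⟨k, rfl⟩ := hx; exact H.eight_group ha g k
    | zero => simp
    | add x y _ _ hx hy =>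
      rw [add_mul, mul_add, mul_add, mul_add, mul_add, hx, hy, add_zero]
    | neg x _ hx => rw [neg_mul, mul_neg, mul_neg, mul_neg, mul_neg, hx, neg_zero]
  | zero => simp
  | add x y _ _ hx hy => rw [add_mul, mul_add, mul_add, hx, hy, add_zero]
  | neg x _ hx => rw [neg_mul, mul_neg, mul_neg, hx, neg_zero]

lemma Hyp.eight_1 {z : Λ} (hz : z ∈ IX τ {a}) : ∀ {δ δ' : Λ}, δ ∈ Dlt τ → δ' ∈ Dlt τ →
    8 * (Xr τ a * (δ * (Xr τ a * (δ' * z)))) = 0 := by
  induction hz using Submodule.span_induction with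
  | mem x hx =>
    obtain ⟨t, ht, r, rfl⟩ := hx
    rw [Set.mem_singleton_iff] at ht
    subst ht
    intro δ δ' hδ hδ'
    have := congrArg (· * r) (H.eight_Dlt ha hδ hδ')
    simpa only [mul_assoc, zero_mul] using this
  | zero => intro δ δ' _ _; simp
  | add x y _ _ hx hy =>
    intro δ δ' hδ hδ'
    rw [mul_add, mul_add, mul_add, mul_add, mul_add, hx hδ hδ', hy hδ hδ', add_zero]
  | smul c x _ hx =>
    intro δ δ' hδ hδ'
    rw [smul_eq_mul, ← mul_assoc δ']
    exact hx hδ (Dlt_right H.span hδ' c)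

lemma Hyp.eight_2 {y z : Λ} (hy : y ∈ IX τ {a}) (hz : z ∈ IX τ {a}) :
    ∀ {δ δ' : Λ}, δ ∈ Dlt τ → δ' ∈ Dlt τ → 8 * (Xr τ a * (δ * (y * (δ' * z)))) = 0 := by
  induction hy using Submodule.span_induction with
  | mem x hx =>
    obtain ⟨t, ht, r, rfl⟩ := hx
    rw [Set.mem_singleton_iff] at ht
    subst ht
    intro δ δ' hδ hδ'
    rw [mul_assoc (Xr τ t) r, ← mul_assoc r]
    exact H.eight_1 ha hz hδ (Dlt_left H.span hδ' r)
  | zero => intro δ δ' _ _; simp
  | add x y _ _ hx hy =>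
    intro δ δ' hδ hδ'
    rw [add_mul, mul_add, mul_add, mul_add, hx hδ hδ', hy hδ hδ', add_zero]
  | smul c x _ hx =>
    intro δ δ' hδ hδ'
    rw [smul_eq_mul, mul_assoc c x, ← mul_assoc δ]
    exact hx (Dlt_right H.span hδ c) hδ'

lemma Hyp.eight_3 {x y z : Λ} (hx : x ∈ IX τ {a}) (hy : y ∈ IX τ {a}) (hz : z ∈ IX τ {a})
    {δ δ' : Λ} (hδ : δ ∈ Dlt τ) (hδ' : δ' ∈ Dlt τ) : 8 * (x * (δ * (y * (δ' * z)))) = 0 := by
  induction hx using Submodule.span_induction with
  | mem x hx =>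
    obtain ⟨t, ht, r, rfl⟩ := hx
    rw [Set.mem_singleton_iff] at ht
    subst ht
    rw [mul_assoc (Xr τ t) r, ← mul_assoc r]
    exact H.eight_2 ha hy hz (Dlt_left H.span hδ r) hδ'
  | zero => simp
  | add x y _ _ hx hy => rw [add_mul, mul_add, hx, hy, add_zero]
  | smul c x _ hx => rw [smul_eq_mul, mul_assoc, eight_comm, hx, mul_zero]

end

omit [Group F] in
lemma list_split (l : List F) (i j : ℕ) (h : l.length = i + j) :
    ∃ l₁ l₂, l = l₁ ++ l₂ ∧ l₁.length = i ∧ l₂.length = j :=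
  ⟨l.take i, l.drop i, (List.take_append_drop i l).symm, by simp; omega, by simp; omega⟩

omit [Group F] in
lemma list_split' (l : List F) (i j : ℕ) (h : l.length = i + (j + 1)) :
    ∃ l₁ g l₂, l = l₁ ++ g :: l₂ ∧ l₁.length = i ∧ l₂.length = j := by
  obtain ⟨l₁, l₂, h1, h2, h3⟩ := list_split l i (j + 1) h
  cases l₂ with
  | nil => simp at h3
  | cons g l₂ => exact ⟨l₁, g, l₂, h1, h2, by simpa using h3⟩

lemma prod_mem_pow {τ : F →* Λ} {I : Ideal Λ} [I.IsTwoSided] (l : List F)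
    (h : ∀ k ∈ l, τ k - 1 ∈ I) : (l.map (fun k => τ k - 1)).prod ∈ I ^ l.length := by
  induction l with
  | nil => rw [List.length_nil, Submodule.pow_zero, Ideal.one_eq_top]; trivial
  | cons x l ih =>
    rw [List.map_cons, List.prod_cons, List.length_cons, Ideal.IsTwoSided.pow_succ]
    exact Ideal.mul_mem_mul (h x List.mem_cons_self) (ih (fun k hk => h k (List.mem_cons_of_mem _ hk)))

/-- the number `m₀`. -/
def mZero (d : ℕ) : ℕ := (d + 2) * (1 + d + d * d) + 1

/-- **The ring theorem.** -/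
theorem Hyp.main {τ : F →* Λ} {ε : F →* ℤˣ} (H : Hyp τ ε) {a : F} (ha : ε a = -1)
    (bs : List F) (hb : ∀ b ∈ bs, ε b = 1)
    (hL : ∀ f : F, ∃ l ∈ Subgroup.closure {b | b ∈ bs}, ∃ i : ℕ, f = l * a ^ i)
    (ks : List F) (hlen : ks.length = 6 * mZero bs.length + 5)
    (hks : ∀ k ∈ ks, k ∈ ⁅ε.ker, ε.ker⁆) : (ks.map (fun k => τ k - 1)).prod = 0 := by
  set J := IX τ {c | ε c = -1} with hJ
  set m := mZero bs.length with hm
  have F4 : J ^ m ≤ D2 Λ := H.J_pow_le ha bs hb hL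
  have F5 : J ^ (m + 1) ≤ IX τ {a} := by
    rw [Submodule.pow_succ, Ideal.mul_le]
    intro x hx y hy
    obtain ⟨w, rfl⟩ := mem_D2.mp (F4 hx)
    have h2 : ∀ y ∈ J, 2 * y ∈ IX τ {a} := by
      intro y hy
      induction hy using Submodule.span_induction with
      | mem x hx =>
        obtain ⟨t, ht, r, rfl⟩ := hx
        rw [← mul_assoc]
        exact Ideal.mul_mem_right _ _ (H.two_Xr_mem ha t ht)
      | zero => rw [mul_zero]; exact zero_mem _
      | add x y _ _ hx hy => rw [mul_add]; exact add_mem hx hy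
      | smul c x _ hx =>
        rw [smul_eq_mul]
        have : 2 * (c * x) = c * (2 * x) := by noncomm_ring
        rw [this]; exact Ideal.mul_mem_left _ _ hx
    have : 2 * w * y = w * (2 * y) := by noncomm_ring
    rw [this]; exact Ideal.mul_mem_left _ _ (h2 y hy)
  have F1 : ∀ k ∈ ⁅ε.ker, ε.ker⁆, τ k - 1 ∈ J := comm_mem ha
  have hP : ∀ (l : List F), (∀ k ∈ l, k ∈ ⁅ε.ker, ε.ker⁆) → ∀ j, l.length = j →
      (l.map (fun k => τ k - 1)).prod ∈ J ^ j := by
    intro l hl j hj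
    subst hj
    exact prod_mem_pow l (fun k hk => F1 k (hl k hk))
  obtain ⟨l1, g, r1, rfl, h1, h1'⟩ := list_split' ks (m + 1) (5 * m + 3) (by omega)
  obtain ⟨l2, h, r2, rfl, h2, h2'⟩ := list_split' r1 (m + 1) (4 * m + 1) (by omega)
  obtain ⟨l3, r3, rfl, h3, h3'⟩ := list_split r2 (m + 1) (3 * m) (by omega)
  obtain ⟨l4, r4, rfl, h4, h4'⟩ := list_split r3 m (2 * m) (by omega)
  obtain ⟨l5, l6, rfl, h5, h6⟩ := list_split r4 m m (by omega)
  simp only [List.map_append, List.map_cons, List.prod_append, List.prod_cons]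
  have e1 := F5 (hP l1 (fun k hk => hks k (by simp [hk])) (m + 1) h1)
  have e2 := F5 (hP l2 (fun k hk => hks k (by simp [hk])) (m + 1) h2)
  have e3 := F5 (hP l3 (fun k hk => hks k (by simp [hk])) (m + 1) h3)
  obtain ⟨w4, e4⟩ := mem_D2.mp (F4 (hP l4 (fun k hk => hks k (by simp [hk])) m h4))
  obtain ⟨w5, e5⟩ := mem_D2.mp (F4 (hP l5 (fun k hk => hks k (by simp [hk])) m h5))
  obtain ⟨w6, e6⟩ := mem_D2.mp (F4 (hP l6 (fun k hk => hks k (by simp [hk])) m h6))
  rw [e4, e5, e6]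
  have key := H.eight_3 ha e1 e2 e3 (δ := τ g - 1) (δ' := τ h - 1)
    (AddSubgroup.subset_closure ⟨g, rfl⟩) (AddSubgroup.subset_closure ⟨h, rfl⟩)
  generalize (l1.map (fun k => τ k - 1)).prod = A1 at key ⊢
  generalize (l2.map (fun k => τ k - 1)).prod = A2 at key ⊢
  generalize (l3.map (fun k => τ k - 1)).prod = A3 at key ⊢
  have e : A1 * ((τ g - 1) * (A2 * ((τ h - 1) * (A3 * (2 * w4 * (2 * w5 * (2 * w6)))))))
      = 8 * (A1 * ((τ g - 1) * (A2 * ((τ h - 1) * A3)))) * (w4 * w5 * w6) := by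
    noncomm_ring
  rw [e, key, zero_mul]

end Pool.Agent.Helper59.Split
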