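import Pool.Agent.Helper59.Split.R5

set_option autoImplicit false

namespace Pool.Agent.Helper59.Split

open scoped commutatorElement

variable {F : Type*} [Group F] {Λ : Type*} [Ring Λ]

/-- the ideal generated by the `t - 1`, `t ∈ s`. -/
def PX (τ : F →* Λ) (s : Set F) : Ideal Λ := Ideal.span {x | ∃ t ∈ s, ∃ r, x = (τ t - 1) * r}

lemma PX_mul_mem (τ : F →* Λ) {s : Set F} {t : F} (ht : t ∈ s) (r : Λ) :
    (τ t - 1) * r ∈ PX τ s :=
  Ideal.subset_span ⟨t, ht, r, rfl⟩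

lemma PX_mem (τ : F →* Λ) {s : Set F} {t : F} (ht : t ∈ s) : τ t - 1 ∈ PX τ s := by
  have := PX_mul_mem τ ht 1
  rwa [mul_one] at this

instance PX_twoSided (τ : F →* Λ) (s : Set F) : (PX τ s).IsTwoSided := by
  constructor
  intro x b hx
  induction hx using Submodule.span_induction with
  | mem x hx =>
    obtain ⟨t, ht, r, rfl⟩ := hx
    rw [mul_assoc]; exact PX_mul_mem τ ht _
  | zero => rw [zero_mul]; exact zero_mem _
  | add x y _ _ hx hy => rw [add_mul]; exact add_mem hx hy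
  | smul c x _ hx => rw [smul_eq_mul, mul_assoc]; exact Ideal.mul_mem_left _ _ hx

lemma PX_le (τ : F →* Λ) {s : Set F} {I : Ideal Λ} [I.IsTwoSided] (h : ∀ t ∈ s, τ t - 1 ∈ I) :
    PX τ s ≤ I := by
  rw [PX, Ideal.span_le]
  rintro x ⟨t, ht, r, rfl⟩
  exact Ideal.mul_mem_right _ _ (h t ht)

lemma PX_Dlt {τ : F →* Λ} (hspan : AddSubgroup.closure (Set.range τ) = ⊤) {s : Set F} {x : Λ}
    (hx : x ∈ PX τ s) : x ∈ Dlt τ := by
  induction hx using Submodule.span_induction with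
  | mem x hx =>
    obtain ⟨t, ht, r, rfl⟩ := hx
    exact Dlt_right hspan (AddSubgroup.subset_closure ⟨t, rfl⟩) r
  | zero => exact zero_mem _
  | add x y _ _ hx hy => exact add_mem hx hy
  | smul c x _ hx => exact Dlt_left hspan hx c

lemma mul_step {I K : Ideal Λ} {p : Λ → Prop} (hadd : ∀ x y, p x → p y → p (x + y))
    (h : ∀ x ∈ I, ∀ s ∈ K, p (x * s)) : ∀ s ∈ I * K, p s :=
  fun _ hs => Submodule.mul_induction_on hs h hadd

/-- **The ring theorem**, ideal form. -/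
theorem Hyp.main' {τ : F →* Λ} {ε : F →* ℤˣ} (H : Hyp τ ε) {a : F} (ha : ε a = -1)
    (bs : List F) (hb : ∀ b ∈ bs, ε b = 1)
    (hL : ∀ f : F, ∃ l ∈ Subgroup.closure {b | b ∈ bs}, ∃ i : ℕ, f = l * a ^ i) :
    PX τ (⁅ε.ker, ε.ker⁆ : Subgroup F) ^ (6 * mZero bs.length + 5) = ⊥ := by
  set J := IX τ {c | ε c = -1} with hJ
  set m := mZero bs.length with hm
  set P := PX τ (⁅ε.ker, ε.ker⁆ : Subgroup F) with hP
  have F4 : J ^ m ≤ D2 Λ := H.J_pow_le ha bs hb hL
  have F5 : J ^ (m + 1) ≤ IX τ {a} := by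
    rw [Submodule.pow_succ, Ideal.mul_le]
    intro x hx y hy
    obtain ⟨w, rfl⟩ := mem_D2.mp (F4 hx)
    have h2 : ∀ y ∈ J, 2 * y ∈ IX τ {a} := by
      intro y hy
      induction hy using Submodule.span_induction with
      | mem x hx =>
        obtain ⟨t, ht, r, rfl⟩ := hx
        rw [← mul_assoc]
        exact Ideal.mul_mem_right _ _ (H.two_Xr_mem ha t ht)
      | zero => rw [mul_zero]; exact zero_mem _
      | add x y _ _ hx hy => rw [mul_add]; exact add_mem hx hy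
      | smul c x _ hx =>
        rw [smul_eq_mul]
        have : 2 * (c * x) = c * (2 * x) := by noncomm_ring
        rw [this]; exact Ideal.mul_mem_left _ _ hx
    have : 2 * w * y = w * (2 * y) := by noncomm_ring
    rw [this]; exact Ideal.mul_mem_left _ _ (h2 y hy)
  have F1 : P ≤ J := PX_le τ (comm_mem ha)
  obtain ⟨M, hM⟩ : ∃ M, M = m + 1 := ⟨_, rfl⟩
  have A1 : P ^ M ≤ IX τ {a} := by rw [hM]; exact (Ideal.pow_right_mono F1 _).trans F5
  have A2 : P ^ m ≤ D2 Λ := (Ideal.pow_right_mono F1 _).trans F4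
  have e : 6 * m + 5 = M + (1 + (M + (1 + (M + (m + (m + m)))))) := by rw [hM]; ring
  rw [e]
  simp only [Ideal.IsTwoSided.pow_add, Submodule.pow_one]
  rw [eq_bot_iff]
  intro s hs
  rw [Submodule.mem_bot]
  revert s
  refine mul_step (fun x y hx hy => by rw [hx, hy, add_zero]) ?_
  intro x1 h1
  refine mul_step (fun x y hx hy => by rw [mul_add, hx, hy, add_zero]) ?_
  intro x2 h2
  refine mul_step (fun x y hx hy => by simp only [mul_add]; rw [hx, hy, add_zero]) ?_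
  intro x3 h3
  refine mul_step (fun x y hx hy => by simp only [mul_add]; rw [hx, hy, add_zero]) ?_
  intro x4 h4
  refine mul_step (fun x y hx hy => by simp only [mul_add]; rw [hx, hy, add_zero]) ?_
  intro x5 h5
  refine mul_step (fun x y hx hy => by simp only [mul_add]; rw [hx, hy, add_zero]) ?_
  intro x6 h6
  refine mul_step (fun x y hx hy => by simp only [mul_add]; rw [hx, hy, add_zero]) ?_
  intro x7 h7 x8 h8
  obtain ⟨w6, rfl⟩ := mem_D2.mp (A2 h6)
  obtain ⟨w7, rfl⟩ := mem_D2.mp (A2 h7)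
  obtain ⟨w8, rfl⟩ := mem_D2.mp (A2 h8)
  have key := H.eight_3 ha (A1 h1) (A1 h3) (A1 h5) (PX_Dlt H.span h2) (PX_Dlt H.span h4)
  have e : 2 * w6 * (2 * w7 * (2 * w8)) = 8 * (w6 * w7 * w8) := by noncomm_ring
  rw [e, ← eight_comm, ← eight_comm, ← eight_comm, ← eight_comm, ← eight_comm]
  have := congrArg (· * (w6 * w7 * w8)) key
  simpa only [mul_assoc, zero_mul] using this

/-- if `τ x - 1` and `τ y - 1` are in `I`, for all `x ∈ S`, then the commutators are in `I²`. -/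
lemma commutator_mem_sq (τ : F →* Λ) {I : Ideal Λ} [I.IsTwoSided] {S : Subgroup F}
    (h : ∀ x ∈ S, τ x - 1 ∈ I) : ∀ x ∈ ⁅S, S⁆, τ x - 1 ∈ I * I := by
  intro x hx
  rw [Subgroup.commutator_def] at hx
  induction hx using Subgroup.closure_induction with
  | mem z hz =>
    obtain ⟨x, hx, y, hy, rfl⟩ := hz
    have e : τ ⁅x, y⁆ - 1 = ((τ x - 1) * (τ y - 1) - (τ y - 1) * (τ x - 1)) * (τ x⁻¹ * τ y⁻¹) := by
      have i1 : (τ x * τ y) * (τ x⁻¹ * τ y⁻¹) = τ ⁅x, y⁆ := by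
        simp only [← map_mul, commutatorElement_def]; congr 1; group
      have i2 : (τ y * τ x) * (τ x⁻¹ * τ y⁻¹) = 1 := by
        simp only [← map_mul]
        rw [show y * x * (x⁻¹ * y⁻¹) = 1 by group, map_one]
      have i3 : (τ x - 1) * (τ y - 1) - (τ y - 1) * (τ x - 1) = τ x * τ y - τ y * τ x := by
        noncomm_ring
      rw [i3, sub_mul, i1, i2]
    rw [e]
    exact Ideal.mul_mem_right _ _ (sub_mem (Ideal.mul_mem_mul (h x hx) (h y hy))
      (Ideal.mul_mem_mul (h y hy) (h x hx)))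
  | one => rw [map_one, sub_self]; exact zero_mem _
  | mul x y _ _ hx hy =>
    have : τ (x * y) - 1 = τ x * (τ y - 1) + (τ x - 1) := by rw [map_mul]; noncomm_ring
    rw [this]; exact add_mem (Ideal.mul_mem_left _ _ hy) hx
  | inv x _ hx =>
    have : τ x⁻¹ - 1 = -(τ x⁻¹ * (τ x - 1)) := by
      rw [mul_sub, ← map_mul, inv_mul_cancel, map_one, mul_one, neg_sub]
    rw [this]; exact neg_mem (Ideal.mul_mem_left _ _ hx)

/-- iterated derived subgroups -/
def Tder (K : Subgroup F) : ℕ → Subgroup F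
  | 0 => ⁅K, K⁆
  | j + 1 => ⁅Tder K j, Tder K j⁆

lemma Tder_mem (τ : F →* Λ) (K : Subgroup F) : ∀ (j : ℕ), ∀ x ∈ Tder K j,
    τ x - 1 ∈ PX τ (⁅K, K⁆ : Subgroup F) ^ (2 ^ j) := by
  intro j
  induction j with
  | zero =>
    intro x hx
    rw [pow_zero, Submodule.pow_one]
    exact PX_mem τ hx
  | succ j ih =>
    have := commutator_mem_sq τ ih
    rw [pow_succ, mul_two, Ideal.IsTwoSided.pow_add]
    exact this

/-- the constant. -/
def jZero (d : ℕ) : ℕ := Nat.clog 2 (6 * mZero d + 5)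

theorem Hyp.trivial {τ : F →* Λ} {ε : F →* ℤˣ} (H : Hyp τ ε) {a : F} (ha : ε a = -1)
    (bs : List F) (hb : ∀ b ∈ bs, ε b = 1)
    (hL : ∀ f : F, ∃ l ∈ Subgroup.closure {b | b ∈ bs}, ∃ i : ℕ, f = l * a ^ i) :
    ∀ x ∈ Tder ε.ker (jZero bs.length), τ x = 1 := by
  intro x hx
  have h1 := Tder_mem τ ε.ker _ x hx
  have h2 : PX τ (⁅ε.ker, ε.ker⁆ : Subgroup F) ^ (2 ^ jZero bs.length) ≤ ⊥ := by
    rw [← H.main' ha bs hb hL]
    exact Ideal.pow_le_pow_right (Nat.le_pow_clog (by norm_num) _)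
  have h3 := h2 h1
  rw [Submodule.mem_bot, sub_eq_zero] at h3
  exact h3

end Pool.Agent.Helper59.Split
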