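import Pool.Agent.Helper59.Split.R6

set_option autoImplicit false

namespace Pool.Agent.Helper59.Split

variable {F : Type*} [Group F] {A : Type*} [AddCommGroup A]

/-- the twisted map into the endomorphism ring. -/
def tw (ρ : F →* AddMonoid.End A) (ε : F →* ℤˣ) : F →* AddMonoid.End A where
  toFun g := ((ε g : ℤ) : AddMonoid.End A) * ρ g
  map_one' := by rw [map_one, map_one, Units.val_one, Int.cast_one, one_mul]
  map_mul' g h := by
    rw [map_mul, map_mul, Units.val_mul, Int.cast_mul]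
    have := (Int.cast_commute (ε h : ℤ) (ρ g)).eq
    rw [mul_assoc, mul_assoc, ← mul_assoc (ρ g), ← this, mul_assoc]

lemma tw_def (ρ : F →* AddMonoid.End A) (ε : F →* ℤˣ) (g : F) :
    tw ρ ε g = ((ε g : ℤ) : AddMonoid.End A) * ρ g := rfl

lemma tw_pos (ρ : F →* AddMonoid.End A) (ε : F →* ℤˣ) {g : F} (h : ε g = 1) :
    tw ρ ε g = ρ g := by
  rw [tw_def, h, Units.val_one, Int.cast_one, one_mul]

lemma tw_neg (ρ : F →* AddMonoid.End A) (ε : F →* ℤˣ) {g : F} (h : ε g = -1) :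
    tw ρ ε g = -ρ g := by
  rw [tw_def, h, Units.val_neg, Units.val_one, Int.cast_neg, Int.cast_one, neg_mul, one_mul]

/-- the subring generated by the image. -/
abbrev SR (ρ : F →* AddMonoid.End A) (ε : F →* ℤˣ) : Subring (AddMonoid.End A) :=
  Subring.closure (Set.range (tw ρ ε))

/-- the twisted map into the subring. -/
def twS (ρ : F →* AddMonoid.End A) (ε : F →* ℤˣ) : F →* SR ρ ε :=
  (tw ρ ε).codRestrict (SR ρ ε) (fun g => Subring.subset_closure ⟨g, rfl⟩)

lemma twS_coe (ρ : F →* AddMonoid.End A) (ε : F →* ℤˣ) (g : F) :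
    ((twS ρ ε g : SR ρ ε) : AddMonoid.End A) = tw ρ ε g := rfl

lemma twS_span (ρ : F →* AddMonoid.End A) (ε : F →* ℤˣ) :
    AddSubgroup.closure (Set.range (twS ρ ε)) = ⊤ := by
  rw [eq_top_iff]
  rintro ⟨x, hx⟩ _
  have hx' := hx
  rw [Subring.mem_closure_iff] at hx'
  have key : ∀ x (_ : x ∈ AddSubgroup.closure (Submonoid.closure (Set.range (tw ρ ε)) :
      Set (AddMonoid.End A))), ∃ hx : x ∈ SR ρ ε,
      (⟨x, hx⟩ : SR ρ ε) ∈ AddSubgroup.closure (Set.range (twS ρ ε)) := by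
    intro x hx
    induction hx using AddSubgroup.closure_induction with
    | mem y hy =>
      have : Submonoid.closure (Set.range (tw ρ ε)) = MonoidHom.mrange (tw ρ ε) := by
        have := Submonoid.closure_eq (MonoidHom.mrange (tw ρ ε))
        rwa [MonoidHom.coe_mrange] at this
      rw [SetLike.mem_coe, this] at hy
      obtain ⟨g, rfl⟩ := hy
      exact ⟨Subring.subset_closure ⟨g, rfl⟩, AddSubgroup.subset_closure ⟨g, rfl⟩⟩
    | zero => exact ⟨zero_mem _, zero_mem _⟩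
    | add y z _ _ hy hz =>
      obtain ⟨hy1, hy2⟩ := hy
      obtain ⟨hz1, hz2⟩ := hz
      exact ⟨add_mem hy1 hz1, add_mem hy2 hz2⟩
    | neg y _ hy =>
      obtain ⟨hy1, hy2⟩ := hy
      exact ⟨neg_mem hy1, neg_mem hy2⟩
  obtain ⟨_, h⟩ := key x hx'
  exact h

lemma hyp_twS (ρ : F →* AddMonoid.End A) (ε : F →* ℤˣ)
    (hq : ∀ c, ε c = -1 → ∀ x : A, x + ρ c x + ρ c (ρ c x) + ρ c (ρ c (ρ c x)) = 0)
    (n : ℕ) (hn : ∀ gs : List F, gs.length = n → ∀ x : A,
      gs.foldr (fun g z => ρ g z - z) x = 0) : Hyp (twS ρ ε) ε := by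
  refine ⟨twS_span ρ ε, ?_, n, ?_⟩
  · intro c hc
    apply Subtype.ext
    ext x
    have := hq c hc x
    change tw ρ ε c (tw ρ ε c (tw ρ ε c x)) = tw ρ ε c (tw ρ ε c x) - tw ρ ε c x + x
    rw [tw_neg ρ ε hc]
    change -(ρ c (-(ρ c (-(ρ c x))))) = -(ρ c (-(ρ c x))) - -(ρ c x) + x
    simp only [map_neg, neg_neg]
    rw [neg_eq_iff_add_eq_zero, ← this]
    abel
  · intro gs hgs y
    apply Subtype.ext
    ext x
    have key : ∀ gs : List F, ((gs.foldr (fun g z => (ε g : ℤ) • (twS ρ ε g * z) - z) y : SR ρ ε) :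
        AddMonoid.End A) x = gs.foldr (fun g z => ρ g z - z) ((y : AddMonoid.End A) x) := by
      intro gs
      induction gs with
      | nil => rfl
      | cons g gs ih =>
        rw [List.foldr_cons, List.foldr_cons, ← ih]
        generalize gs.foldr (fun g z => (ε g : ℤ) • (twS ρ ε g * z) - z) y = w
        change ((ε g : ℤ) • (tw ρ ε g * (w : AddMonoid.End A))) x - (w : AddMonoid.End A) x
          = ρ g ((w : AddMonoid.End A) x) - (w : AddMonoid.End A) x
        congr 1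
        rcases Int.units_eq_one_or (ε g) with hg | hg
        · rw [tw_pos ρ ε hg, hg, Units.val_one, one_smul]; rfl
        · rw [tw_neg ρ ε hg, hg, Units.val_neg, Units.val_one, neg_one_smul, neg_mul, neg_neg]; rfl
    rw [key, hn gs hgs]; rfl

/-- **Ring part.** -/
theorem ring_part (ρ : F →* AddMonoid.End A) (ε : F →* ℤˣ) {a : F} (ha : ε a = -1)
    (bs : List F) (hb : ∀ b ∈ bs, ε b = 1)
    (hL : ∀ f : F, ∃ l ∈ Subgroup.closure {b | b ∈ bs}, ∃ i : ℕ, f = l * a ^ i)
    (hq : ∀ c, ε c = -1 → ∀ x : A, x + ρ c x + ρ c (ρ c x) + ρ c (ρ c (ρ c x)) = 0)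
    (n : ℕ) (hn : ∀ gs : List F, gs.length = n → ∀ x : A,
      gs.foldr (fun g z => ρ g z - z) x = 0) :
    ∀ g ∈ Tder ε.ker (jZero bs.length), ∀ x : A, ρ g x = x := by
  intro g hg x
  have h1 := (hyp_twS ρ ε hq n hn).trivial ha bs hb hL g hg
  have hle : ∀ j, Tder ε.ker j ≤ ε.ker := by
    intro j
    induction j with
    | zero => exact Subgroup.commutator_le_left _ _
    | succ j ih => exact (Subgroup.commutator_mono ih ih).trans (Subgroup.commutator_le_left _ _)
  have h2 : ε g = 1 := hle _ hg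
  have h3 := congrArg (fun z : SR ρ ε => ((z : AddMonoid.End A) x)) h1
  simp only [twS_coe, tw_pos ρ ε h2] at h3
  exact h3

end Pool.Agent.Helper59.Split
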