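import Mathlib

/-!
Part T0 of the proof for MP_77d03c_al: an exact identity for the operators
`E a g y = X (g y - y)`, `X z = z + a a z`, on vectors fixed by `a`.
-/

set_option autoImplicit false

namespace Pool.Agent.Helper59.Split

set_option linter.unusedSectionVars false

variable {F : Type*} [Group F] {A : Type*} [AddCommGroup A] [DistribMulAction F A]

/-- The operator `X_a = 1 + a^2`. -/
def Xop (a : F) (z : A) : A := z + a • a • z

/-- The operator `E_g y = X_a (g y - y)`. -/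
def Eop (a g : F) (y : A) : A := Xop a (g • y - y)

lemma Xop_add (a : F) (y z : A) : Xop a (y + z) = Xop a y + Xop a z := by
  simp only [Xop, smul_add]; abel

lemma Xop_sub (a : F) (y z : A) : Xop a (y - z) = Xop a y - Xop a z := by
  simp only [Xop, smul_sub]; abel

lemma Xop_neg (a : F) (y : A) : Xop a (-y) = -Xop a y := by
  simp only [Xop, smul_neg]; abel

lemma Xop_zsmul (a : F) (n : ℤ) (y : A) : Xop a (n • y) = n • Xop a y := by
  simp only [Xop, smul_comm _ n, smul_add]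

lemma Eop_add (a g : F) (y z : A) : Eop a g (y + z) = Eop a g y + Eop a g z := by
  simp only [Eop, ← Xop_add, smul_add]; congr 1; abel

lemma Eop_sub (a g : F) (y z : A) : Eop a g (y - z) = Eop a g y - Eop a g z := by
  simp only [Eop, ← Xop_sub, smul_sub]; congr 1; abel

lemma Eop_zsmul (a g : F) (n : ℤ) (y : A) : Eop a g (n • y) = n • Eop a g y := by
  simp only [Eop, ← Xop_zsmul, smul_sub]; congr 1; rw [smul_comm]

lemma Eop_zero (a g : F) : Eop a g (0 : A) = 0 := by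
  simp [Eop, Xop]

/-- The relation `(c - 1)(c^2 + 1) = 0`. -/
def QRel (A : Type*) [AddCommGroup A] [DistribMulAction F A] (c : F) : Prop :=
  ∀ x : A, c • c • c • x = c • c • x - c • x + x

lemma QRel.four {c : F} (hc : QRel A c) (x : A) : c • c • c • c • x = x := by
  have h1 := hc (c • x)
  rw [h1, hc x]; abel

lemma QRel.inv {c : F} (hc : QRel A c) (x : A) : c⁻¹ • x = c • c • x - c • x + x := by
  have h := hc (c⁻¹ • x)
  simp only [smul_inv_smul] at h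
  rw [h]; abel

lemma QRel.sq {c : F} (hc : QRel A c) (x : A) : c • c • x = c⁻¹ • x + c • x - x := by
  rw [hc.inv]; abel

lemma QRel.inv_inv_sq {c : F} (hc : QRel A c) (x : A) : c⁻¹ • c⁻¹ • x = c • c • x := by
  rw [inv_smul_eq_iff, inv_smul_eq_iff, hc.four]

section fixed

variable {a : F}

lemma Xop_fix (ha : QRel A a) (z : A) : a • Xop a z = Xop a z := by
  simp only [Xop, smul_add, ha z]; abel

lemma Xop_smul_a (ha : QRel A a) (z : A) : Xop a (a • z) = Xop a z := by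
  simp only [Xop, ha z]; abel

lemma Xop_smul_a_inv (ha : QRel A a) (z : A) : Xop a (a⁻¹ • z) = Xop a z := by
  rw [← Xop_smul_a ha (a⁻¹ • z), smul_inv_smul]

lemma Xop_fixed {y : A} (hy : a • y = y) : Xop a y = (2 : ℤ) • y := by
  simp only [Xop, hy]; abel

lemma Eop_fix (ha : QRel A a) (g : F) (y : A) : a • Eop a g y = Eop a g y := Xop_fix ha _

lemma Eop_mul_fixed {w : F} {y : A} (hw : w • y = y) (g : F) : Eop a (g * w) y = Eop a g y := by
  simp only [Eop, mul_smul, hw]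

lemma Eop_left (ha : QRel A a) (g : F) (y : A) : Eop a (a * g) y = Eop a g y := by
  simp only [Eop, Xop_sub, mul_smul, Xop_smul_a ha]

lemma Eop_left_inv (ha : QRel A a) (g : F) (y : A) : Eop a (a⁻¹ * g) y = Eop a g y := by
  simp only [Eop, Xop_sub, mul_smul, Xop_smul_a_inv ha]

lemma inv_fixed {w : F} {y : A} (hw : w • y = y) : w⁻¹ • y = y := by
  rw [inv_smul_eq_iff, hw]

lemma Eop_right {y : A} (hy : a • y = y) (g : F) : Eop a (g * a) y = Eop a g y :=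
  Eop_mul_fixed hy g

lemma Eop_right_inv {y : A} (hy : a • y = y) (g : F) : Eop a (g * a⁻¹) y = Eop a g y :=
  Eop_mul_fixed (inv_fixed hy) g

lemma Eop_one (y : A) : Eop a (1 : F) y = 0 := by simp [Eop, Xop]

/-- The product formula (P). -/
lemma Eop_P (ha : QRel A a) {y : A} (hy : a • y = y) (g h : F) :
    Eop a (g * h) y + Eop a (g * a * a * h) y
      = Eop a g (Eop a h y) + (2 : ℤ) • Eop a g y + (2 : ℤ) • Eop a h y := by
  have h1 : Eop a g (Eop a h y) = Xop a (g • Eop a h y) - (2 : ℤ) • Eop a h y := by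
    rw [← Xop_fixed (Eop_fix ha h y)]; rw [← Xop_sub]; rfl
  have h2 : g • Eop a h y = (g • h • y - y) + (g • a • a • h • y - y)
      - (2 : ℤ) • (g • y - y) := by
    simp only [Eop, Xop, smul_add, smul_sub, hy]; abel
  rw [h1, h2, Xop_sub, Xop_add, Xop_zsmul]
  simp only [Eop, mul_smul]; abel

/-- The relation (Q). -/
lemma Eop_Q {c : F} (hc : QRel A c) (g h : F) (y : A) :
    Eop a (g * c * c * h) y + Eop a (g * h) y = Eop a (g * c * h) y + Eop a (g * c⁻¹ * h) y := by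
  simp only [Eop, ← Xop_add, mul_smul]
  congr 1
  rw [hc.sq (h • y)]
  simp only [smul_add, smul_sub]; abel

lemma Eop_sq {c : F} (hc : QRel A c) (y : A) :
    Eop a (c * c) y = Eop a c y + Eop a c⁻¹ y := by
  have := Eop_Q (a := a) hc 1 1 y
  simpa [Eop_one] using this

/-- (e3) -/
lemma Eop_inv_S (ha : QRel A a) {y : A} (hy : a • y = y) {c : F} (hc : QRel A c)
    (hca : QRel A (c * a * a)) : Eop a c⁻¹ y = c • Eop a c y := by
  have h1 := hca.inv (A := A) y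
  have h2 : (c * a * a)⁻¹ • y = a • a • c⁻¹ • y := by
    have : (c * a * a)⁻¹ = a⁻¹ * a⁻¹ * c⁻¹ := by group
    rw [this]; simp only [mul_smul]; rw [ha.inv_inv_sq]
  rw [h2] at h1
  simp only [mul_smul, hy] at h1
  -- a a c⁻¹ y = c a a c y - c y + y
  simp only [Eop, Xop, smul_add, smul_sub, hy]
  rw [h1, hc.inv]
  abel

/-- `c^2` fixes `E_c y`. -/
lemma Eop_csq_fix (ha : QRel A a) {y : A} (hy : a • y = y) {c : F} (hc : QRel A c)
    (hca : QRel A (c * a * a)) (hcca : QRel A (c * c * a)) :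
    c • c • Eop a c y = Eop a c y := by
  have h1 := hcca.inv (A := A) y
  have h2 : (c * c * a)⁻¹ • y = a⁻¹ • c • c • y := by
    have : (c * c * a)⁻¹ = a⁻¹ * (c⁻¹ * c⁻¹) := by group
    rw [this]; simp only [mul_smul]; rw [hc.inv_inv_sq]
  rw [h2] at h1
  simp only [mul_smul, hy] at h1
  -- u is fixed by c
  have hu : Xop c (a • Xop c y) = Xop a (c • c • y) + (2 : ℤ) • c • c • y := by
    simp only [Xop, smul_add, hy]
    have e1 : c • c • a • c • c • y = a⁻¹ • c • c • y + c • c • y - y := by rw [h1]; abel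
    rw [e1, ha.sq (c • c • y)]
    abel
  have hfix : c • (Xop a (c • c • y) + (2 : ℤ) • c • c • y)
      = Xop a (c • c • y) + (2 : ℤ) • c • c • y := by
    rw [← hu]; exact Xop_fix hc _
  have hE : Xop a (c • c • y) = Eop a c y + c • Eop a c y + (2 : ℤ) • y := by
    rw [← Eop_inv_S ha hy hc hca, ← Eop_sq hc]
    simp only [Eop, mul_smul, Xop_sub, Xop_fixed hy]; abel
  rw [hE] at hfix
  simp only [smul_add, smul_comm c (2 : ℤ), hc y] at hfix
  simp only [smul_sub] at hfix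
  have h3 : c • c • Eop a c y - Eop a c y
      = (c • Eop a c y + c • c • Eop a c y + (2 : ℤ) • c • y
          + ((2 : ℤ) • c • c • y - (2 : ℤ) • c • y + (2 : ℤ) • y))
        - (Eop a c y + c • Eop a c y + (2 : ℤ) • y + (2 : ℤ) • c • c • y) := by abel
  rw [hfix] at h3
  rw [sub_self] at h3
  exact sub_eq_zero.mp h3

lemma Eop_two_fix_S (ha : QRel A a) {y : A} (hy : a • y = y) {c : F} (hc : QRel A c)
    (hca : QRel A (c * a * a)) (hcca : QRel A (c * c * a)) :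
    (2 : ℤ) • c • Eop a c y = (2 : ℤ) • Eop a c y := by
  have h1 := Eop_csq_fix ha hy hc hca hcca
  have h2 := hc (Eop a c y)
  rw [h1] at h2
  have : (2 : ℤ) • c • Eop a c y = c • Eop a c y + c • Eop a c y := by abel
  rw [this]
  nth_rewrite 1 [h2]
  abel

lemma Eop_caac (ha : QRel A a) {y : A} (hy : a • y = y) {c : F}
    (hca : QRel A (c * a * a)) :
    Eop a (c * a * a * c) y = Eop a c⁻¹ y + Eop a c y := by
  have h1 := hca.inv (A := A) y
  have h2 : (c * a * a)⁻¹ • y = a • a • c⁻¹ • y := by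
    have : (c * a * a)⁻¹ = a⁻¹ * a⁻¹ * c⁻¹ := by group
    rw [this]; simp only [mul_smul]; rw [ha.inv_inv_sq]
  rw [h2] at h1
  simp only [mul_smul, hy] at h1
  have h3 : c • a • a • c • y = a • a • c⁻¹ • y + c • y - y := by rw [h1]; abel
  simp only [Eop, mul_smul, h3, Xop_sub, Xop_add, Xop_smul_a ha]
  abel

lemma Eop_Eop_S (ha : QRel A a) {y : A} (hy : a • y = y) {c : F} (hc : QRel A c)
    (hca : QRel A (c * a * a)) (hcca : QRel A (c * c * a)) :
    Eop a c (Eop a c y) = 0 := by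
  have h1 := Eop_P ha hy c c
  rw [Eop_caac ha hy hca, Eop_sq hc, Eop_inv_S ha hy hc hca] at h1
  have h2 := Eop_two_fix_S ha hy hc hca hcca
  have h3 : Eop a c (Eop a c y) = (2 : ℤ) • c • Eop a c y - (2 : ℤ) • Eop a c y := by
    have : Eop a c (Eop a c y) = (Eop a c (Eop a c y) + (2 : ℤ) • Eop a c y
      + (2 : ℤ) • Eop a c y) - (4 : ℤ) • Eop a c y := by abel
    rw [this, ← h1]; abel
  rw [h3, h2, sub_self]

end fixed

section sign

variable {ε : F →* ℤˣ} {a : F}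

lemma int_units_eq_one_or' (u : ℤˣ) : u = 1 ∨ u = -1 := Int.units_eq_one_or u

/-- all elements outside the kernel of `ε` satisfy the relation. -/
def QAll (A : Type*) [AddCommGroup A] [DistribMulAction F A] (ε : F →* ℤˣ) : Prop :=
  ∀ c : F, ε c = -1 → QRel A c

lemma QAll.caa (h : QAll A ε) {c a : F} (hc : ε c = -1) : QRel A (c * a * a) := by
  apply h; rw [map_mul, map_mul, hc, mul_assoc, Int.units_mul_self, mul_one]

lemma QAll.cca (h : QAll A ε) {c a : F} (ha : ε a = -1) : QRel A (c * c * a) := by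
  apply h; rw [map_mul, map_mul, ha, Int.units_mul_self, one_mul]

variable (h : QAll A ε) (ha : ε a = -1) {y : A} (hy : a • y = y)
include h ha hy

lemma E_two_fix (g : F) : (2 : ℤ) • g • Eop a g y = (2 : ℤ) • Eop a g y := by
  rcases Int.units_eq_one_or (ε g) with hg | hg
  · have hc : ε (g * a) = -1 := by rw [map_mul, hg, ha, one_mul]
    have h1 := Eop_two_fix_S (h a ha) hy (h _ hc) (h.caa hc) (h.cca ha)
    rw [Eop_right hy, mul_smul, Eop_fix (h a ha)] at h1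
    exact h1
  · exact Eop_two_fix_S (h a ha) hy (h _ hg) (h.caa hg) (h.cca ha)

lemma E_inv (g : F) : (2 : ℤ) • Eop a g⁻¹ y = (2 : ℤ) • Eop a g y := by
  rcases Int.units_eq_one_or (ε g) with hg | hg
  · have hc : ε (g * a) = -1 := by rw [map_mul, hg, ha, one_mul]
    have h1 := Eop_inv_S (h a ha) hy (h _ hc) (h.caa hc)
    have h2 := Eop_two_fix_S (h a ha) hy (h _ hc) (h.caa hc) (h.cca ha)
    rw [← h1, Eop_right hy, mul_inv_rev, Eop_left_inv (h a ha)] at h2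
    exact h2
  · have h1 := Eop_inv_S (h a ha) hy (h _ hg) (h.caa hg)
    have h2 := Eop_two_fix_S (h a ha) hy (h _ hg) (h.caa hg) (h.cca ha)
    rw [← h1] at h2
    exact h2

lemma E_E (g : F) : Eop a g (Eop a g y) = 0 := by
  rcases Int.units_eq_one_or (ε g) with hg | hg
  · have hc : ε (g * a) = -1 := by rw [map_mul, hg, ha, one_mul]
    have h1 := Eop_Eop_S (h a ha) hy (h _ hc) (h.caa hc) (h.cca ha)
    rw [Eop_right hy, Eop_right (Eop_fix (h a ha) _ _)] at h1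
    exact h1
  · exact Eop_Eop_S (h a ha) hy (h _ hg) (h.caa hg) (h.cca ha)

end sign

/-- twice the composition -/
def Bop (a g k : F) (y : A) : A := (2 : ℤ) • Eop a g (Eop a k y)

section bil

variable {ε : F →* ℤˣ} {a : F}
variable (h : QAll A ε) (ha : ε a = -1) {y : A} (hy : a • y = y)
include h ha hy

lemma B_inv_left (g k : F) : Bop a g⁻¹ k y = Bop a g k y :=
  E_inv h ha (Eop_fix (h a ha) k y) g

lemma B_inv_right (g k : F) : Bop a g k⁻¹ y = Bop a g k y := by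
  unfold Bop
  rw [← Eop_zsmul, E_inv h ha hy, Eop_zsmul]

lemma B_mul_right (g k : F) : Bop a (g * k) k y = Bop a g k y := by
  have h1 : Eop a (g * k) ((2 : ℤ) • Eop a k y) = Eop a g ((2 : ℤ) • Eop a k y) :=
    Eop_mul_fixed (by rw [smul_comm, E_two_fix h ha hy]) g
  rw [Eop_zsmul, Eop_zsmul] at h1
  exact h1

lemma B_mul_left (g k : F) : Bop a (k * g) k y = Bop a g k y := by
  rw [← B_inv_left h ha hy, ← B_inv_right h ha hy, mul_inv_rev, B_mul_right h ha hy,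
    B_inv_left h ha hy, B_inv_right h ha hy]

lemma E_aa_inv (g k : F) : Eop a (k * a * a * g)⁻¹ y = Eop a (g⁻¹ * a * a * k⁻¹) y := by
  have : (k * a * a * g)⁻¹ = g⁻¹ * (a⁻¹ * (a⁻¹ * k⁻¹)) := by group
  rw [this]
  simp only [Eop, mul_smul]
  rw [(h a ha).inv_inv_sq]

lemma B_comm (g k : F) : Bop a g k y = Bop a k g y := by
  have h1 := Eop_P (h a ha) hy g k
  have h2 := Eop_P (h a ha) hy k⁻¹ g⁻¹
  have e1 := E_inv h ha hy (g * k)
  have e2 := E_inv h ha hy (g * a * a * k)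
  rw [E_aa_inv h ha hy] at e2
  rw [mul_inv_rev] at e1
  have e3 := E_inv h ha hy g
  have e4 := E_inv h ha hy k
  have e5 : Bop a k⁻¹ g⁻¹ y = Bop a k g y := by
    rw [B_inv_left h ha hy, B_inv_right h ha hy]
  rw [← e5]
  have h1' : Bop a g k y = (2 : ℤ) • Eop a (g * k) y + (2 : ℤ) • Eop a (g * a * a * k) y
      - (2 : ℤ) • ((2 : ℤ) • Eop a g y) - (2 : ℤ) • ((2 : ℤ) • Eop a k y) := by
    have : Bop a g k y = (2 : ℤ) • (Eop a g (Eop a k y) + (2 : ℤ) • Eop a g y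
      + (2 : ℤ) • Eop a k y) - (2 : ℤ) • ((2 : ℤ) • Eop a g y)
        - (2 : ℤ) • ((2 : ℤ) • Eop a k y) := by unfold Bop; abel
    rw [this, ← h1, smul_add]
  have h2' : Bop a k⁻¹ g⁻¹ y = (2 : ℤ) • Eop a (k⁻¹ * g⁻¹) y
      + (2 : ℤ) • Eop a (k⁻¹ * a * a * g⁻¹) y
      - (2 : ℤ) • ((2 : ℤ) • Eop a k⁻¹ y) - (2 : ℤ) • ((2 : ℤ) • Eop a g⁻¹ y) := by
    have : Bop a k⁻¹ g⁻¹ y = (2 : ℤ) • (Eop a k⁻¹ (Eop a g⁻¹ y) + (2 : ℤ) • Eop a k⁻¹ y
      + (2 : ℤ) • Eop a g⁻¹ y) - (2 : ℤ) • ((2 : ℤ) • Eop a k⁻¹ y)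
        - (2 : ℤ) • ((2 : ℤ) • Eop a g⁻¹ y) := by unfold Bop; abel
    rw [this, ← h2, smul_add]
  rw [h1', h2', e1, e2, e3, e4]
  abel

lemma B_right_mul (g k : F) : Bop a g (g * k) y = Bop a g k y := by
  rw [B_comm h ha hy, B_mul_left h ha hy, B_comm h ha hy]

lemma B_right_mul' (g k : F) : Bop a g (k * g) y = Bop a g k y := by
  rw [B_comm h ha hy, B_mul_right h ha hy, B_comm h ha hy]

lemma B_self (g : F) : Bop a g g y = 0 := by
  unfold Bop; rw [E_E h ha hy, smul_zero]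

/-- doubled (P) -/
lemma P2 (g k : F) : (2 : ℤ) • Eop a (g * k) y + (2 : ℤ) • Eop a (g * a * a * k) y
    = Bop a g k y + (4 : ℤ) • Eop a g y + (4 : ℤ) • Eop a k y := by
  rw [← smul_add, Eop_P (h a ha) hy]
  unfold Bop; abel

lemma B_aa_right (g k : F) : Bop a g (k * a * a) y = Bop a g k y := by
  unfold Bop; rw [Eop_right hy, Eop_right hy]

lemma B_sq_right (g : F) {c : F} (hc : ε c = -1) : Bop a g (c * c) y = (2 : ℤ) • Bop a g c y := by
  have h1 := B_inv_right h ha hy g c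
  have h2 : Bop a g (c * c) y = Bop a g c y + Bop a g c⁻¹ y := by
    unfold Bop; rw [Eop_sq (h c hc), Eop_add, smul_add]
  rw [h2, h1]; abel

/-- (20) -/
lemma step20 (k : F) {c : F} (hc : ε c = -1) :
    (2 : ℤ) • Eop a (c * (k * a * a * k⁻¹) * c) y
      = (2 : ℤ) • Bop a c k y + (4 : ℤ) • Eop a (c * k) y + (4 : ℤ) • Eop a (c⁻¹ * k) y
        - (4 : ℤ) • Eop a c y := by
  have h1 := P2 h ha hy (c * k) (k⁻¹ * c)
  have e1 : c * k * (k⁻¹ * c) = c * c := by group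
  have e2 : c * k * a * a * (k⁻¹ * c) = c * (k * a * a * k⁻¹) * c := by group
  rw [e1, e2] at h1
  have h2 : (2 : ℤ) • Eop a (c * c) y = (4 : ℤ) • Eop a c y := by
    rw [Eop_sq (h c hc), smul_add, E_inv h ha hy]; abel
  have h3 : Bop a (c * k) (k⁻¹ * c) y = (2 : ℤ) • Bop a c k y := by
    rw [← B_right_mul h ha hy, e1, B_sq_right h ha hy _ hc, B_comm h ha hy,
      B_right_mul h ha hy]
  have h4 : (4 : ℤ) • Eop a (k⁻¹ * c) y = (4 : ℤ) • Eop a (c⁻¹ * k) y := by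
    have := E_inv h ha hy (k⁻¹ * c)
    rw [mul_inv_rev, inv_inv] at this
    have h5 : (4 : ℤ) • Eop a (k⁻¹ * c) y = (2 : ℤ) • ((2 : ℤ) • Eop a (k⁻¹ * c) y) := by abel
    rw [h5, ← this]; abel
  rw [h2, h3, h4] at h1
  rw [← sub_eq_iff_eq_add'] at h1
  rw [← h1]; abel

/-- (21) -/
lemma step21 (k : F) {c : F} (hc : ε c = -1) :
    Eop a (c * (k * a * a * k⁻¹) * c) y
      = Eop a c y - Eop a (k * a * a * k⁻¹) y
        + Eop a ((k * a * a * k⁻¹) * c⁻¹ * (k * a * a * k⁻¹)) y := by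
  set s := k * a * a * k⁻¹ with hs
  have hss : ∀ x : A, s • s • x = x := by
    intro x
    have : s • s • x = k • a • a • a • a • k⁻¹ • x := by
      rw [← mul_smul, hs]
      have : k * a * a * k⁻¹ * (k * a * a * k⁻¹) = k * (a * (a * (a * (a * k⁻¹)))) := by group
      rw [this]; simp only [mul_smul]
    rw [this, (h a ha).four, smul_inv_smul]
  have hcs : ε (c * s) = -1 := by
    rw [hs]; simp only [map_mul, hc, ha, map_inv]
    rcases Int.units_eq_one_or (ε k) with hk | hk <;> rw [hk] <;> decide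
  have h1 := (h _ hcs).inv (s • y)
  have h2 : (c * s)⁻¹ • s • y = s • c⁻¹ • s • y := by
    rw [mul_inv_rev, mul_smul]
    rw [inv_smul_eq_iff, hss]
  rw [h2] at h1
  simp only [mul_smul, hss] at h1
  have h3 : c • s • c • y = c • y - s • y + s • c⁻¹ • s • y := by rw [h1]; abel
  simp only [Eop, mul_smul, h3, Xop_sub, Xop_add]
  abel

/-- (22) -/
lemma step22 (k : F) {c : F} (hc : ε c = -1) :
    (2 : ℤ) • Eop a (c * (k * a * a * k⁻¹) * c) y
      = (2 : ℤ) • Bop a c k y + (4 : ℤ) • Eop a c y + (8 : ℤ) • Eop a (k⁻¹ * c * k) y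
        - (4 : ℤ) • Eop a (c * k) y - (4 : ℤ) • Eop a (c⁻¹ * k) y := by
  rw [step21 h ha hy k hc]
  -- E_sigma
  have hσ : (2 : ℤ) • Eop a (k * a * a * k⁻¹) y = (8 : ℤ) • Eop a k y := by
    have h1 := P2 h ha hy k k⁻¹
    rw [mul_inv_cancel, Eop_one, smul_zero, zero_add, B_inv_right h ha hy, B_self h ha hy,
      zero_add] at h1
    rw [h1]
    have h2 := E_inv h ha hy k
    have h5 : (4 : ℤ) • Eop a k⁻¹ y = (2 : ℤ) • ((2 : ℤ) • Eop a k⁻¹ y) := by abel
    rw [h5, h2]; abel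
  -- the word u = k⁻¹ c⁻¹ k a a k⁻¹
  set u := k⁻¹ * c⁻¹ * k * a * a * k⁻¹ with hu
  have e1 : (k * a * a * k⁻¹) * c⁻¹ * (k * a * a * k⁻¹) = k * a * a * u := by rw [hu]; group
  have h1 := P2 h ha hy k u
  have hB : Bop a k u y = Bop a c k y := by
    rw [← B_right_mul h ha hy]
    have : k * u = (c⁻¹ * k * a * a) * k⁻¹ := by rw [hu]; group
    rw [this]
    have e : (c⁻¹ * k * a * a) = (c⁻¹ * k * a * a) * k⁻¹ * k := by group
    have h2 : Bop a k ((c⁻¹ * k * a * a) * k⁻¹) y = Bop a k (c⁻¹ * k * a * a) y := by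
      conv_rhs => rw [e]
      rw [B_right_mul' h ha hy]
    rw [h2, B_aa_right h ha hy, B_right_mul' h ha hy, B_inv_right h ha hy, B_comm h ha hy]
  have hc1 : (2 : ℤ) • Eop a c⁻¹ y = (2 : ℤ) • Eop a c y := E_inv h ha hy c
  have hk1 : (2 : ℤ) • Eop a k⁻¹ y = (2 : ℤ) • Eop a k y := E_inv h ha hy k
  -- 2 E_{k u}
  have h3 := P2 h ha hy (c⁻¹ * k) k⁻¹
  have e3 : c⁻¹ * k * k⁻¹ = c⁻¹ := by group
  have e4 : c⁻¹ * k * a * a * k⁻¹ = k * u := by rw [hu]; group
  have e5 : Bop a (c⁻¹ * k) k⁻¹ y = Bop a c k y := by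
    rw [B_inv_right h ha hy, B_mul_right h ha hy, B_inv_left h ha hy]
  rw [e3, e4, e5] at h3
  -- 2 E_u
  have h4 := P2 h ha hy (k⁻¹ * c⁻¹ * k) k⁻¹
  have e6 : k⁻¹ * c⁻¹ * k * k⁻¹ = (c * k)⁻¹ := by group
  have e7 : k⁻¹ * c⁻¹ * k * a * a * k⁻¹ = u := rfl
  have e8 : Bop a (k⁻¹ * c⁻¹ * k) k⁻¹ y = Bop a c k y := by
    rw [B_inv_right h ha hy, B_mul_right h ha hy]
    have : k⁻¹ * c⁻¹ = (c * k)⁻¹ := by group
    rw [this, B_inv_left h ha hy, B_mul_right h ha hy]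
  have e9 : (2 : ℤ) • Eop a (k⁻¹ * c⁻¹ * k) y = (2 : ℤ) • Eop a (k⁻¹ * c * k) y := by
    have := E_inv h ha hy (k⁻¹ * c * k)
    have e : (k⁻¹ * c * k)⁻¹ = k⁻¹ * c⁻¹ * k := by group
    rw [e] at this; exact this
  have e10 : (2 : ℤ) • Eop a (c * k)⁻¹ y = (2 : ℤ) • Eop a (c * k) y := E_inv h ha hy _
  rw [e6, e7, e8] at h4
  rw [e1]
  rw [hB] at h1
  -- collect
  set E1 := Eop a (k * a * a * u) y
  set E2 := Eop a (k * u) y
  set E3 := Eop a u y
  set b := Bop a c k y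
  have f4 : (2 : ℤ) • E3 = b + (4 : ℤ) • Eop a (k⁻¹ * c * k) y + (4 : ℤ) • Eop a k y
      - (2 : ℤ) • Eop a (c * k) y := by
    have t1 : (4 : ℤ) • Eop a (k⁻¹ * c⁻¹ * k) y = (2 : ℤ) • ((2 : ℤ) • Eop a (k⁻¹ * c * k) y) := by
      rw [← e9]; abel
    have t2 : (4 : ℤ) • Eop a k⁻¹ y = (2 : ℤ) • ((2 : ℤ) • Eop a k y) := by
      rw [← hk1]; abel
    rw [e10, t1, t2] at h4
    rw [← eq_sub_iff_add_eq'] at h4
    rw [h4]; abel
  have f3 : (2 : ℤ) • E2 = b + (4 : ℤ) • Eop a (c⁻¹ * k) y + (4 : ℤ) • Eop a k y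
      - (2 : ℤ) • Eop a c y := by
    have t2 : (4 : ℤ) • Eop a k⁻¹ y = (2 : ℤ) • ((2 : ℤ) • Eop a k y) := by
      rw [← hk1]; abel
    rw [hc1, t2] at h3
    rw [← eq_sub_iff_add_eq'] at h3
    rw [h3]; abel
  have f1 : (2 : ℤ) • E1 = b + (4 : ℤ) • Eop a k y + (2 : ℤ) • ((2 : ℤ) • E3)
      - (2 : ℤ) • E2 := by
    rw [← eq_sub_iff_add_eq'] at h1
    rw [h1]; abel
  have f5 : (2 : ℤ) • (Eop a c y - Eop a (k * a * a * k⁻¹) y + E1)
      = (2 : ℤ) • Eop a c y - (2 : ℤ) • Eop a (k * a * a * k⁻¹) y + (2 : ℤ) • E1 := by abel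
  rw [f5, hσ, f1, f3, f4]
  abel

/-- (23) -/
lemma step23 (k : F) {c : F} (hc : ε c = -1) :
    (8 : ℤ) • Eop a (k⁻¹ * c * k) y
      = (8 : ℤ) • Eop a (c * k) y + (8 : ℤ) • Eop a (c⁻¹ * k) y - (8 : ℤ) • Eop a c y := by
  have h1 := step20 h ha hy k hc
  have h2 := step22 h ha hy k hc
  rw [h1] at h2
  have h3 : (8 : ℤ) • Eop a (k⁻¹ * c * k) y
      = ((2 : ℤ) • Bop a c k y + (4 : ℤ) • Eop a c y + (8 : ℤ) • Eop a (k⁻¹ * c * k) y
        - (4 : ℤ) • Eop a (c * k) y - (4 : ℤ) • Eop a (c⁻¹ * k) y)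
        - ((2 : ℤ) • Bop a c k y + (4 : ℤ) • Eop a c y
        - (4 : ℤ) • Eop a (c * k) y - (4 : ℤ) • Eop a (c⁻¹ * k) y) := by abel
  rw [h3, ← h2]; abel

/-- T0 -/
theorem eight_E_E (g k : F) : (8 : ℤ) • Eop a g (Eop a k y) = 0 := by
  -- reduce to g⁻¹ and g * k
  have key : ∀ p q : F, (8 : ℤ) • Eop a p⁻¹ (Eop a (p * q) y) = 0 := by
    intro p q
    have h1 := step23 h ha hy p ha
    have h2 := step23 h ha hy (p * q) ha
    have hc : ε (p⁻¹ * a * p) = -1 := by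
      simp only [map_mul, map_inv, ha]
      rcases Int.units_eq_one_or (ε p) with hk | hk <;> rw [hk] <;> decide
    have h3 := step23 h ha hy q hc
    rw [Eop_left (h a ha), Eop_left_inv (h a ha)] at h1 h2
    have hE : Eop a a y = 0 := by
      have := Eop_mul_fixed (a := a) hy 1
      rw [one_mul, Eop_one] at this; exact this
    rw [hE] at h1 h2
    have e1 : q⁻¹ * (p⁻¹ * a * p) * q = (p * q)⁻¹ * a * (p * q) := by group
    have e2 : (p⁻¹ * a * p)⁻¹ * q = p⁻¹ * a⁻¹ * (p * q) := by group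
    have e3 : (p⁻¹ * a * p) * q = p⁻¹ * a * (p * q) := by group
    rw [e1, e2, e3, h1, h2] at h3
    have h4 := Eop_P (h a ha) hy (p⁻¹ * a) (p * q)
    have e4 : Eop a (p⁻¹ * a * a * a * (p * q)) y = Eop a (p⁻¹ * a⁻¹ * (p * q)) y := by
      simp only [Eop, mul_smul]
      congr 3
      rw [eq_inv_smul_iff, (h a ha).four]
    rw [e4, Eop_right (Eop_fix (h a ha) _ _), Eop_right hy] at h4
    have h5 : (8 : ℤ) • Eop a p⁻¹ y = (8 : ℤ) • Eop a p y := by
      have := E_inv h ha hy p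
      have t : (8 : ℤ) • Eop a p⁻¹ y = (4 : ℤ) • ((2 : ℤ) • Eop a p⁻¹ y) := by abel
      rw [t, this]; abel
    have h6 : (8 : ℤ) • Eop a p⁻¹ (Eop a (p * q) y)
        = (8 : ℤ) • (Eop a p⁻¹ (Eop a (p * q) y) + (2 : ℤ) • Eop a p⁻¹ y
          + (2 : ℤ) • Eop a (p * q) y) - (2 : ℤ) • ((8 : ℤ) • Eop a p⁻¹ y)
          - (16 : ℤ) • Eop a (p * q) y := by abel
    rw [h6, ← h4, h5, smul_add]
    have h7 : (8 : ℤ) • Eop a (p⁻¹ * a * (p * q)) y + (8 : ℤ) • Eop a (p⁻¹ * a⁻¹ * (p * q)) y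
        = ((8 : ℤ) • Eop a (p⁻¹ * a * (p * q)) y + (8 : ℤ) • Eop a (p⁻¹ * a⁻¹ * (p * q)) y
          - ((8 : ℤ) • Eop a p y + (8 : ℤ) • Eop a p y - (8 : ℤ) • (0 : A)))
          + (16 : ℤ) • Eop a p y := by simp only [smul_zero]; abel
    rw [h7, ← h3]
    simp only [smul_zero]; abel
  have := key g⁻¹ (g * k)
  rwa [inv_inv, inv_mul_cancel_left] at this

end bil

end Pool.Agent.Helper59.Split
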