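import Pool.Agent.Helper59.Split.T0
import Pool.Agent.Helper59.Split.Cls

/-!
Part T1 of the proof for MP_77d03c_al: nilpotency in characteristic two.
-/

set_option autoImplicit false

namespace Pool.Agent.Helper59.Split

set_option linter.unusedSectionVars false

variable {F : Type*} [Group F] {V : Type*} [AddCommGroup V] [DistribMulAction F V]

/-! ### Words -/

/-- The word `X g₁ X g₂ … X gₙ z`. -/
def Wd (a : F) (l : List F) (z : V) : V := l.foldr (fun g z => Xop a (g • z)) z

@[simp] lemma Wd_nil (a : F) (z : V) : Wd a [] z = z := rfl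
@[simp] lemma Wd_cons (a g : F) (l : List F) (z : V) :
    Wd a (g :: l) z = Xop a (g • Wd a l z) := rfl
lemma Wd_append (a : F) (l m : List F) (z : V) : Wd a (l ++ m) z = Wd a l (Wd a m z) := by
  simp [Wd, List.foldr_append]

lemma Wd_add (a : F) (l : List F) (y z : V) : Wd a l (y + z) = Wd a l y + Wd a l z := by
  induction l with
  | nil => rfl
  | cons g l ih => simp only [Wd_cons, ih, smul_add, Xop_add]

lemma Wd_zero (a : F) (l : List F) : Wd a l (0 : V) = 0 := by
  induction l with
  | nil => rfl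
  | cons g l ih => simp [ih, Xop]

/-! ### The filtration -/

/-- `Fil t` is the subgroup spanned by `(g₁ - 1)…(g_t - 1) V`. -/
def Fil (F : Type*) [Group F] (V : Type*) [AddCommGroup V] [DistribMulAction F V] :
    ℕ → AddSubgroup V
  | 0 => ⊤
  | t + 1 => AddSubgroup.closure {w | ∃ z ∈ Fil F V t, ∃ g : F, w = g • z - z}

lemma Fil_sub {t : ℕ} {z : V} (hz : z ∈ Fil F V t) (g : F) : g • z - z ∈ Fil F V (t + 1) :=
  AddSubgroup.subset_closure ⟨z, hz, g, rfl⟩

lemma Fil_smul (t : ℕ) : ∀ {z : V}, z ∈ Fil F V t → ∀ g : F, g • z ∈ Fil F V t := by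
  induction t with
  | zero => intro z _ g; trivial
  | succ t ih =>
    intro z hz g
    induction hz using AddSubgroup.closure_induction with
    | mem w hw =>
      obtain ⟨z, hz, k, rfl⟩ := hw
      have : g • (k • z - z) = (g * k * g⁻¹) • (g • z) - g • z := by
        rw [smul_sub]; congr 1; simp only [← mul_smul]; congr 1; group
      rw [this]
      exact Fil_sub (ih hz g) _
    | zero => rw [smul_zero]; exact AddSubgroup.zero_mem _
    | add x y _ _ hx hy => rw [smul_add]; exact AddSubgroup.add_mem _ hx hy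
    | neg x _ hx => rw [smul_neg]; exact AddSubgroup.neg_mem _ hx

lemma Fil_succ_le (t : ℕ) : Fil F V (t + 1) ≤ Fil F V t := by
  show AddSubgroup.closure _ ≤ _
  rw [AddSubgroup.closure_le]
  rintro w ⟨z, hz, g, rfl⟩
  exact AddSubgroup.sub_mem _ (Fil_smul t hz g) hz

lemma Fil_eq_bot {c : ℕ} (hn : ∀ gs : List F, gs.length = c → ∀ x : V,
    gs.foldr (fun g z => g • z - z) x = 0) : Fil F V c = ⊥ := by
  have key : ∀ t j : ℕ, t + j = c → ∀ z ∈ Fil F V t, ∀ gs : List F, gs.length = j →
      gs.foldr (fun g z => g • z - z) z = 0 := by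
    intro t
    induction t with
    | zero => intro j hj z _ gs hgs; exact hn gs (by omega) z
    | succ t ih =>
      intro j hj z hz gs hgs
      have hadd : ∀ (gs : List F) (x y : V), gs.foldr (fun g z => g • z - z) (x + y)
          = gs.foldr (fun g z => g • z - z) x + gs.foldr (fun g z => g • z - z) y := by
        intro gs x y
        induction gs with
        | nil => rfl
        | cons g gs ih => simp only [List.foldr_cons, ih, smul_add]; abel
      have hneg : ∀ (gs : List F) (x : V), gs.foldr (fun g z => g • z - z) (-x)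
          = -gs.foldr (fun g z => g • z - z) x := by
        intro gs x
        induction gs with
        | nil => rfl
        | cons g gs ih => simp only [List.foldr_cons, ih, smul_neg]; abel
      have hzero : ∀ (gs : List F), gs.foldr (fun g z => g • z - z) (0 : V) = 0 := by
        intro gs
        induction gs with
        | nil => rfl
        | cons g gs ih => simp only [List.foldr_cons, ih, smul_zero, sub_zero]
      induction hz using AddSubgroup.closure_induction with
      | mem w hw =>
        obtain ⟨z, hz, k, rfl⟩ := hw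
        have := ih (j + 1) (by omega) z hz (gs ++ [k]) (by simp [hgs])
        rw [List.foldr_append] at this
        exact this
      | zero => exact hzero gs
      | add x y _ _ hx hy => rw [hadd, hx, hy, add_zero]
      | neg x _ hx => rw [hneg, hx, neg_zero]
  rw [eq_bot_iff]
  intro z hz
  have := key c 0 (by omega) z hz [] rfl
  simpa using this

section char2

variable (h2 : ∀ x : V, x + x = 0)
include h2

lemma two_zsmul_eq (x : V) : (2 : ℤ) • x = 0 := by rw [two_zsmul, h2]

lemma Fil_Xop {t : ℕ} {z : V} (hz : z ∈ Fil F V t) (a : F) : Xop a z ∈ Fil F V (t + 1) := by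
  have : Xop a z = ((a * a) • z - z) + (z + z) := by simp only [Xop, mul_smul]; abel
  rw [this, h2, add_zero]
  exact Fil_sub hz _

lemma Xop_fixed2 {a : F} {y : V} (hy : a • y = y) : Xop a y = 0 := by
  rw [Xop_fixed hy, two_zsmul_eq h2]

/-- relation (B) -/
lemma relB {a c : F} (ha : QRel V a) (hc : QRel V c) (hca : QRel V (c * a * a)) (u : V) :
    c • Xop a (c • u) = c • Xop a (c • Xop a u) + (c⁻¹ • Xop a u + Xop a u)
      + Xop a (c⁻¹ • u) := by
  have h1 := hca.inv u
  have e2 : (c * a * a)⁻¹ • u = a • a • c⁻¹ • u := by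
    have : (c * a * a)⁻¹ = a⁻¹ * a⁻¹ * c⁻¹ := by group
    rw [this]; simp only [mul_smul]; rw [ha.inv_inv_sq]
  rw [e2] at h1
  simp only [mul_smul] at h1
  have h3 := two_zsmul_eq h2 (c • c • a • a • u - c • a • a • u + a • a • u
    + c • a • a • c • a • a • u + c⁻¹ • u + u)
  simp only [Xop, smul_add, h1]
  rw [hc.inv (a • a • u)]
  rw [← add_zero (c • c • u + c • a • a • c • u), ← h3]
  abel

/-- relation (A) for elements of `S` -/
lemma relA_S {a c : F} (ha : QRel V a) (hc : QRel V c) (hca : QRel V (c * a * a))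
    (hac : QRel V (a * a * c)) (u : V) :
    Xop a (c • Xop a (c • u)) = c • Xop a (c • Xop a u) := by
  have h1 := hca.inv u
  have e2 : (c * a * a)⁻¹ • u = a • a • c⁻¹ • u := by
    have : (c * a * a)⁻¹ = a⁻¹ * a⁻¹ * c⁻¹ := by group
    rw [this]; simp only [mul_smul]; rw [ha.inv_inv_sq]
  rw [e2] at h1
  have h4 := hac.inv u
  have e5 : (a * a * c)⁻¹ • u = c⁻¹ • a • a • u := by
    have : (a * a * c)⁻¹ = c⁻¹ * (a⁻¹ * a⁻¹) := by group
    rw [this]; simp only [mul_smul]; rw [ha.inv_inv_sq]
  rw [e5] at h4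
  simp only [mul_smul] at h1 h4
  have f1 : c • a • a • c • a • a • u = a • a • c⁻¹ • u + c • a • a • u - u := by
    rw [h1]; abel
  have f2 : a • a • c • a • a • c • u = c⁻¹ • a • a • u + a • a • c • u - u := by
    rw [h4]; abel
  have h3 := two_zsmul_eq h2 (c • a • a • u - a • a • c • u)
  simp only [Xop, smul_add, f1, f2]
  rw [hc.inv (a • a • u), hc.inv u]
  simp only [smul_add, smul_sub]
  rw [← sub_eq_zero, ← neg_eq_zero, ← h3]
  abel

end char2

section main

variable {ε : F →* ℤˣ} {a : F}

lemma relA (h2 : ∀ x : V, x + x = 0) (hq : QAll V ε) (ha : ε a = -1) (g : F) (u : V) :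
    Xop a (g • Xop a (g • u)) = g • Xop a (g • Xop a u) := by
  have hS : ∀ c : F, ε c = -1 → ∀ u : V, 
      Xop a (c • Xop a (c • u)) = c • Xop a (c • Xop a u) := by
    intro c hc u
    apply relA_S h2 (hq a ha) (hq c hc) (hq.caa hc)
    apply hq.cca; exact hc
  rcases Int.units_eq_one_or (ε g) with hg | hg
  · have hc : ε (a * g) = -1 := by rw [map_mul, hg, ha, mul_one]
    have h1 := hS (a * g) hc u
    simp only [mul_smul, Xop_smul_a (hq a ha)] at h1
    have h3 : a • (g • Xop a (g • Xop a u)) = a • Xop a (g • Xop a (g • u)) := by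
      rw [← h1, Xop_fix (hq a ha)]
    exact ((smul_left_cancel_iff _).mp h3).symm
  · exact hS g hg u

/-- The subgroup generated by the squares of the elements of `S`. -/
def Hsub (ε : F →* ℤˣ) : Subgroup F := Subgroup.closure {x | ∃ c, ε c = -1 ∧ x = c * c}

instance Hsub_normal : (Hsub ε).Normal := by
  constructor
  intro n hn g
  induction hn using Subgroup.closure_induction with
  | mem x hx =>
    obtain ⟨c, hc, rfl⟩ := hx
    have : g * (c * c) * g⁻¹ = (g * c * g⁻¹) * (g * c * g⁻¹) := by group
    rw [this]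
    refine Subgroup.subset_closure ⟨_, ?_, rfl⟩
    rw [map_mul, map_mul, map_inv, mul_right_comm, mul_inv_cancel, one_mul, hc]
  | one => simp
  | mul x y _ _ hx hy =>
    have : g * (x * y) * g⁻¹ = (g * x * g⁻¹) * (g * y * g⁻¹) := by group
    rw [this]; exact mul_mem hx hy
  | inv x _ hx =>
    have : g * x⁻¹ * g⁻¹ = (g * x * g⁻¹)⁻¹ := by group
    rw [this]; exact inv_mem hx

lemma sq_mem_Hsub {c : F} (hc : ε c = -1) : c * c ∈ Hsub ε :=
  Subgroup.subset_closure ⟨c, hc, rfl⟩

lemma Hsub_eps {h : F} (hh : h ∈ Hsub ε) : ε h = 1 := by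
  induction hh using Subgroup.closure_induction with
  | mem x hx =>
    obtain ⟨c, hc, rfl⟩ := hx
    rw [map_mul, Int.units_mul_self]
  | one => simp
  | mul x y _ _ hx hy => rw [map_mul, hx, hy, one_mul]
  | inv x _ hx => rw [map_inv, hx, inv_one]

/-- Word classes modulo `Fil (t + 1)`. -/
def wcl (a : F) (v : V) (t : ℕ) (l : List F) : V ⧸ Fil F V (t + 1) :=
  QuotientAddGroup.mk (Wd a l (Xop a v))

lemma wcl_def (a : F) (v : V) (t : ℕ) (l : List F) :
    wcl a v t l = (QuotientAddGroup.mk (Wd a l (Xop a v)) : V ⧸ Fil F V (t + 1)) := rfl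

section words

variable (h2 : ∀ x : V, x + x = 0) (hq : QAll V ε) (ha : ε a = -1) (v : V) (t n : ℕ)
  (hW : ∀ l : List F, l.length = n → Wd a l (Xop a v) ∈ Fil F V t)

include hq ha in
lemma Wd_fixed (l : List F) : a • Wd a l (Xop a v) = Wd a l (Xop a v) := by
  cases l with
  | nil => exact Xop_fix (hq a ha) _
  | cons g l => exact Xop_fix (hq a ha) _

include hq ha in
lemma Wd_right (p r : List F) (g : F) :
    Wd a (p ++ (g * a) :: r) (Xop a v) = Wd a (p ++ g :: r) (Xop a v) := by
  rw [Wd_append, Wd_append, Wd_cons, Wd_cons, mul_smul, Wd_fixed hq ha]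

include hq ha in
lemma Wd_left (p r : List F) (g : F) :
    Wd a (p ++ (a * g) :: r) (Xop a v) = Wd a (p ++ g :: r) (Xop a v) := by
  rw [Wd_append, Wd_append, Wd_cons, Wd_cons, mul_smul, Xop_smul_a (hq a ha)]

include hq ha in
lemma Wd_left_inv (p r : List F) (g : F) :
    Wd a (p ++ (a⁻¹ * g) :: r) (Xop a v) = Wd a (p ++ g :: r) (Xop a v) := by
  rw [← Wd_left hq ha, mul_inv_cancel_left]

include h2 hq ha in
lemma Wd_one (p r : List F) : Wd a (p ++ 1 :: r) (Xop a v) = 0 := by
  rw [Wd_append, Wd_cons, one_smul, Xop_fixed2 h2 (Wd_fixed hq ha v r), Wd_zero]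

include h2 hq ha in
/-- the Sanov move -/
lemma Wd_sanov (p r : List F) (k g u : F) :
    Wd a (p ++ k :: g :: (g * u) :: r) (Xop a v) = Wd a (p ++ (k * g) :: g :: u :: r) (Xop a v) := by
  rw [Wd_append, Wd_append]
  congr 1
  simp only [Wd_cons, mul_smul]
  rw [relA h2 hq ha]

include h2 hW in
lemma wcl_long (l : List F) (hl : l.length = n + 1) : wcl a v t l = 0 := by
  rw [wcl_def, QuotientAddGroup.eq_zero_iff]
  cases l with
  | nil => simp at hl
  | cons g l =>
    exact Fil_Xop h2 (Fil_smul t (hW l (by simpa using hl)) g) a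

include hW in
lemma mk_smul_word (l : List F) (hl : l.length = n) (g : F) :
    (QuotientAddGroup.mk (g • Wd a l (Xop a v)) : V ⧸ Fil F V (t + 1)) = wcl a v t l := by
  rw [wcl_def, QuotientAddGroup.eq, neg_add_eq_sub, ← neg_mem_iff, neg_sub]
  exact Fil_sub (hW l hl) g

include h2 in
lemma wcl_neg (l : List F) : -wcl a v t l = wcl a v t l := by
  rw [neg_eq_iff_add_eq_zero, wcl_def, ← QuotientAddGroup.mk_add, h2]; rfl

include h2 hq ha hW

/-- relation (B), in the middle of a word. -/
lemma wcl_relB (p r : List F) {c : F} (hc : ε c = -1) (x s : F)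
    (hl : p.length + 2 + r.length = n) :
    wcl a v t (p ++ (x * c) :: (c * s) :: r) = wcl a v t (p ++ (x * c⁻¹) :: s :: r)
      + wcl a v t (p ++ x :: s :: r) + wcl a v t (p ++ x :: (c⁻¹ * s) :: r) := by
  have e : Wd a (p ++ (x * c) :: (c * s) :: r) (Xop a v)
      = Wd a (p ++ (x * c) :: c :: s :: r) (Xop a v) + Wd a (p ++ (x * c⁻¹) :: s :: r) (Xop a v)
       + Wd a (p ++ x :: s :: r) (Xop a v) + Wd a (p ++ x :: (c⁻¹ * s) :: r) (Xop a v) := by
    simp only [Wd_append, ← Wd_add, Wd_cons, mul_smul]
    congr 1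
    rw [relB h2 (hq a ha) (hq c hc) (hq.caa hc)]
    simp only [smul_add, Xop_add]
    abel
  have h0 := wcl_long h2 v t n hW (p ++ (x * c) :: c :: s :: r) (by simp; omega)
  rw [wcl_def] at h0
  simp only [wcl_def, e, QuotientAddGroup.mk_add, h0]
  abel

/-- relation (B), at the head of a word. -/
lemma wcl_head (r : List F) {c : F} (hc : ε c = -1) (s : F) (hl : 1 + r.length = n) :
    wcl a v t ((c * s) :: r) = wcl a v t ((c⁻¹ * s) :: r) := by
  have e : c • Wd a ((c * s) :: r) (Xop a v)
      = c • Wd a (c :: s :: r) (Xop a v) + (c⁻¹ • Wd a (s :: r) (Xop a v) + Wd a (s :: r) (Xop a v))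
        + Wd a ((c⁻¹ * s) :: r) (Xop a v) := by
    simp only [Wd_cons, mul_smul]
    exact relB h2 (hq a ha) (hq c hc) (hq.caa hc) _
  have h0 := wcl_long h2 v t n hW (c :: s :: r) (by simp; omega)
  rw [wcl_def] at h0
  have h1 := mk_smul_word v t n hW ((c * s) :: r) (by simp; omega) c
  have h3 := mk_smul_word v t n hW (s :: r) (by simp; omega) c⁻¹
  have h4 : (QuotientAddGroup.mk (c • Wd a (c :: s :: r) (Xop a v)) : V ⧸ Fil F V (t + 1)) = 0 := by
    rw [QuotientAddGroup.eq_zero_iff]
    apply Fil_smul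
    rw [QuotientAddGroup.eq_zero_iff] at h0
    exact h0
  rw [← h1, e, QuotientAddGroup.mk_add, QuotientAddGroup.mk_add, QuotientAddGroup.mk_add, h3, h4]
  have h5 : wcl a v t (s :: r) + wcl a v t (s :: r) = 0 := by
    rw [wcl_def, ← QuotientAddGroup.mk_add, h2]; rfl
  rw [← wcl_def, ← wcl_def, h5]; abel

lemma wcl_head_H (r : List F) {h : F} (hh : h ∈ Hsub ε) (hl : 1 + r.length = n) :
    ∀ s : F, wcl a v t ((h * s) :: r) = wcl a v t (s :: r) := by
  induction hh using Subgroup.closure_induction with
  | mem x hx =>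
    obtain ⟨c, hc, rfl⟩ := hx
    intro s
    rw [mul_assoc, wcl_head h2 hq ha v t n hW r hc (c * s) hl, inv_mul_cancel_left]
  | one => intro s; simp
  | mul x y _ _ hx hy => intro s; rw [mul_assoc, hx, hy]
  | inv x _ hx => intro s; rw [← hx (x⁻¹ * s), mul_inv_cancel_left]

lemma wcl_H : ∀ (j : ℕ) (p r : List F), p.length = j → p.length + 1 + r.length = n →
    ∀ h ∈ Hsub ε, ∀ s : F, wcl a v t (p ++ (h * s) :: r) = wcl a v t (p ++ s :: r) := by
  intro j
  induction j using Nat.strong_induction_on with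
  | _ j ih =>
    intro p r hp hl h hh s
    have ihr : ∀ (p r : List F), p.length < j → p.length + 1 + r.length = n →
        ∀ h ∈ Hsub ε, ∀ s : F, wcl a v t (p ++ (s * h) :: r) = wcl a v t (p ++ s :: r) := by
      intro p r hp hl h hh s
      have := ih p.length hp p r rfl hl (s * h * s⁻¹) ((Hsub_normal (ε := ε)).conj_mem h hh s) s
      simpa using this
    rcases List.eq_nil_or_concat p with rfl | ⟨p', g, rfl⟩
    · simp only [List.length_nil] at hl
      exact wcl_head_H h2 hq ha v t n hW r hh (by omega) s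
    · rw [List.concat_eq_append] at hp hl ⊢
      simp only [List.length_append, List.length_cons, List.length_nil] at hp hl
      have key : ∀ h ∈ Hsub ε, ∀ u : F, wcl a v t (p' ++ [g] ++ (g * (h * u)) :: r)
          = wcl a v t (p' ++ [g] ++ (g * u) :: r) := by
        intro h hh u
        rcases List.eq_nil_or_concat p' with rfl | ⟨p'', k, rfl⟩
        · have hsan : ∀ g u : F, wcl a v t (g :: (g * u) :: r) = wcl a v t (g :: u :: r) := by
            intro g u
            have h1 := mk_smul_word v t n hW (g :: u :: r) (by simp at hl ⊢; omega) g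
            rw [← h1, wcl_def]
            congr 1
            simp only [Wd_cons, mul_smul]
            exact relA h2 hq ha g _
          simp only [List.nil_append, List.cons_append]
          have i1 := ihr [] ((g * (h * u)) :: r) (by simp; omega) (by simp at hl ⊢; omega) h hh g
          have i2 := ihr [] (u :: r) (by simp; omega) (by simp at hl ⊢; omega) h hh g
          simp only [List.nil_append] at i1 i2
          rw [← i1, ← mul_assoc, hsan, i2, hsan]
        · rw [List.concat_eq_append] at hp hl ⊢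
          simp only [List.length_append, List.length_cons, List.length_nil] at hp hl
          have i1 := ihr (p'' ++ [k]) ((g * (h * u)) :: r) (by simp; omega)
            (by simp; omega) h hh g
          have i2 := ihr p'' ((g * h) :: u :: r) (by omega) (by simp; omega) h hh (k * g)
          have i3 := ihr (p'' ++ [k * g]) (u :: r) (by simp; omega) (by simp; omega) h hh g
          have i4 : wcl a v t (p'' ++ k :: (g * h) :: (g * h * u) :: r)
              = wcl a v t (p'' ++ (k * (g * h)) :: (g * h) :: u :: r) := by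
            rw [wcl_def, Wd_sanov h2 hq ha]; rfl
          have i5 : wcl a v t (p'' ++ k :: g :: (g * u) :: r)
              = wcl a v t (p'' ++ (k * g) :: g :: u :: r) := by
            rw [wcl_def, Wd_sanov h2 hq ha]; rfl
          simp only [List.append_assoc, List.cons_append, List.nil_append] at i1 i2 i3 ⊢
          rw [← i1, ← mul_assoc, i4, ← mul_assoc, i2, i3, i5]
      have := key (g⁻¹ * h * g) (by simpa using (Hsub_normal (ε := ε)).conj_mem h hh g⁻¹) (g⁻¹ * s)
      simpa [mul_assoc] using this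

lemma wcl_H_right (p r : List F) (hl : p.length + 1 + r.length = n) 
    {h : F} (hh : h ∈ Hsub ε) (s : F) : wcl a v t (p ++ (s * h) :: r) = wcl a v t (p ++ s :: r) := by
  have := wcl_H h2 hq ha v t n hW p.length p r rfl hl (s * h * s⁻¹)
    ((Hsub_normal (ε := ε)).conj_mem h hh s) s
  simpa using this

/-- words only depend on their entries modulo `H`. -/
lemma wcl_congr {l l' : List F} (hll : List.Forall₂ (fun g g' => g * g'⁻¹ ∈ Hsub ε) l l') :
    ∀ p : List F, p.length + l.length = n → wcl a v t (p ++ l) = wcl a v t (p ++ l') := by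
  induction hll with
  | nil => intro p _; rfl
  | @cons g g' l l' hg hl ih =>
    intro p hp
    simp only [List.length_cons] at hp
    have h1 := wcl_H h2 hq ha v t n hW p.length p l rfl (by omega) (g * g'⁻¹) hg g'
    rw [inv_mul_cancel_right] at h1
    rw [h1]
    have := ih (p ++ [g']) (by simp; omega)
    simpa using this

/-- the mixed difference relation. -/
lemma wcl_diff (p r : List F) {k : F} (hk : ε k = 1) (x s : F)
    (hl : p.length + 2 + r.length = n) :
    wcl a v t (p ++ (x * k) :: (k * s) :: r) - wcl a v t (p ++ (x * k) :: s :: r)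
      - wcl a v t (p ++ x :: (k * s) :: r) + wcl a v t (p ++ x :: s :: r) = 0 := by
  have hc : ε (k * a) = -1 := by rw [map_mul, hk, ha, one_mul]
  have hc2 : (k * a)⁻¹ * (k * a)⁻¹ ∈ Hsub ε := by
    apply sq_mem_Hsub; rw [map_inv, hc]; rfl
  have h1 := wcl_relB h2 hq ha v t n hW p r hc x (a⁻¹ * s) hl
  have e1 : wcl a v t (p ++ (x * (k * a)) :: (k * a * (a⁻¹ * s)) :: r)
      = wcl a v t (p ++ (x * k) :: (k * s) :: r) := by
    rw [show k * a * (a⁻¹ * s) = k * s by group, ← mul_assoc, wcl_def, Wd_right hq ha]; rfl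
  have e2 : wcl a v t (p ++ (x * (k * a)⁻¹) :: (a⁻¹ * s) :: r)
      = wcl a v t (p ++ (x * k) :: s :: r) := by
    have i1 := wcl_H_right h2 hq ha v t n hW p ((a⁻¹ * s) :: r) (by simp; omega) hc2 (x * (k * a))
    have i2 : x * (k * a) * ((k * a)⁻¹ * (k * a)⁻¹) = x * (k * a)⁻¹ := by group
    rw [i2] at i1
    rw [i1, ← mul_assoc, wcl_def, Wd_right hq ha]
    have i3 := Wd_left_inv hq ha v (p ++ [x * k]) r s
    simp only [List.append_assoc, List.cons_append, List.nil_append] at i3
    rw [i3]; rfl
  have e3 : wcl a v t (p ++ x :: (a⁻¹ * s) :: r) = wcl a v t (p ++ x :: s :: r) := by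
    have i3 := Wd_left_inv hq ha v (p ++ [x]) r s
    simp only [List.append_assoc, List.cons_append, List.nil_append] at i3
    rw [wcl_def, i3]; rfl
  have e4 : wcl a v t (p ++ x :: ((k * a)⁻¹ * (a⁻¹ * s)) :: r)
      = wcl a v t (p ++ x :: (k * s) :: r) := by
    have i1 := wcl_H h2 hq ha v t n hW (p ++ [x]).length (p ++ [x]) r rfl (by simp; omega) _ hc2
      (k * a * (a⁻¹ * s))
    simp only [List.append_assoc, List.cons_append, List.nil_append] at i1
    have i2 : (k * a)⁻¹ * (k * a)⁻¹ * (k * a * (a⁻¹ * s)) = (k * a)⁻¹ * (a⁻¹ * s) := by group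
    have i4 : k * a * (a⁻¹ * s) = k * s := by group
    rw [i2, i4] at i1
    exact i1
  rw [e1, e2, e3, e4] at h1
  rw [h1]
  have h3 : wcl a v t (p ++ x :: s :: r) + wcl a v t (p ++ x :: s :: r) = 0 := by
    rw [wcl_def, ← QuotientAddGroup.mk_add, h2]; rfl
  linear_combination (norm := abel) h3

end words


end main

end Pool.Agent.Helper59.Split
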