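import Pool.Agent.Helper59.Split.T1

set_option autoImplicit false

namespace Pool.Agent.Helper59.Split

open Function

lemma forall₂_ofFn {α β : Type*} {n : ℕ} {R : α → β → Prop} (l : List α) (hl : l.length = n)
    (g : Fin n → β) (h : ∀ i : Fin n, R (l[(i : ℕ)]'(by rw [hl]; exact i.2)) (g i)) :
    List.Forall₂ R l (List.ofFn g) := by
  rw [List.forall₂_iff_get]
  refine ⟨by rw [List.length_ofFn, hl], ?_⟩
  intro i h3 h4
  rw [List.get_eq_getElem, List.get_eq_getElem, List.getElem_ofFn]
  exact h ⟨i, by rw [← hl]; exact h3⟩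

lemma ofFn_split₁ {F : Type*} {n : ℕ} (g : Fin n → F) (p : Fin n) :
    ∃ P R : List F, P.length + 1 + R.length = n ∧ List.ofFn g = P ++ g p :: R := by
  refine ⟨(List.ofFn g).take p, (List.ofFn g).drop (p + 1), ?_, ?_⟩
  · simp
  · conv_lhs => rw [← List.take_append_drop p (List.ofFn g)]
    congr 1
    rw [List.drop_eq_getElem_cons (by simp)]
    simp

lemma ofFn_split₂ {F : Type*} {n : ℕ} (g : Fin n → F) (p q : Fin n) (h : (p : ℕ) + 1 = q) :
    ∃ P R : List F, P.length + 2 + R.length = n ∧
      ∀ u v, List.ofFn (update (update g p u) q v) = P ++ u :: v :: R := by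
  refine ⟨(List.ofFn g).take p, (List.ofFn g).drop (p + 2), ?_, ?_⟩
  · simp; omega
  · intro u v
    have hq := q.2
    have hpq : p ≠ q := fun e => by rw [e] at h; omega
    apply List.ext_getElem
    · simp; omega
    · intro i h1 h2
      rw [List.getElem_ofFn]
      rcases lt_trichotomy i p with hi | hi | hi
      · rw [List.getElem_append_left (by simp; omega)]
        rw [update_of_ne (by intro e; rw [Fin.ext_iff] at e; simp at e; omega),
          update_of_ne (by intro e; rw [Fin.ext_iff] at e; simp at e; omega)]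
        simp
      · subst hi
        rw [List.getElem_append_right (by simp)]
        rw [update_of_ne (by intro e; rw [Fin.ext_iff] at e; simp at e; omega)]
        simp
      · rw [List.getElem_append_right (by simp; omega)]
        rcases eq_or_lt_of_le (Nat.succ_le_of_lt hi) with hi' | hi'
        · have hiq : (⟨i, by simpa using h1⟩ : Fin n) = q := Fin.ext (by simp; omega)
          rw [hiq, update_self]
          have : i = p + 1 := by omega
          subst this
          simp
        · obtain ⟨j, rfl⟩ : ∃ j, i = p + 2 + j := ⟨i - (p + 2), by omega⟩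
          rw [update_of_ne (by intro e; rw [Fin.ext_iff] at e; simp at e; omega),
            update_of_ne (by intro e; rw [Fin.ext_iff] at e; simp at e; omega)]
          have : (p : ℕ) + 2 + j - ((List.ofFn g).take p).length = j + 2 := by simp; omega
          simp only [this, List.getElem_cons_succ, List.getElem_drop, List.getElem_ofFn]

variable {F : Type*} [Group F] {V : Type*} [AddCommGroup V] [DistribMulAction F V]
variable {ε : F →* ℤˣ} {a : F}

/-- The quotient `K / H`. -/
abbrev KH (ε : F →* ℤˣ) : Type _ := ε.ker ⧸ (Hsub ε).subgroupOf ε.ker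

lemma mk_a_comm (ha : ε a = -1) {k : F} (hk : ε k = 1) :
    (QuotientGroup.mk a : F ⧸ Hsub ε) * QuotientGroup.mk k
      = (QuotientGroup.mk k)⁻¹ * QuotientGroup.mk a := by
  have h1 : (QuotientGroup.mk ((k * a) * (k * a)) : F ⧸ Hsub ε) = 1 := by
    rw [QuotientGroup.eq_one_iff]
    exact sq_mem_Hsub (by rw [map_mul, hk, ha, one_mul])
  have h2 : (QuotientGroup.mk (a * a) : F ⧸ Hsub ε) = 1 := by
    rw [QuotientGroup.eq_one_iff]
    exact sq_mem_Hsub ha
  simp only [QuotientGroup.mk_mul] at h1 h2
  set A : F ⧸ Hsub ε := QuotientGroup.mk a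
  set B : F ⧸ Hsub ε := QuotientGroup.mk k
  have h3 : A⁻¹ = A := by rw [inv_eq_iff_mul_eq_one]; exact h2
  calc A * B = B⁻¹ * (B * A * (B * A)) * A⁻¹ := by group
    _ = B⁻¹ * A := by rw [h1, mul_one, h3]

lemma mk_comm (ha : ε a = -1) {k l : F} (hk : ε k = 1) (hl : ε l = 1) :
    (QuotientGroup.mk k : F ⧸ Hsub ε) * QuotientGroup.mk l
      = QuotientGroup.mk l * QuotientGroup.mk k := by
  have h1 := mk_a_comm ha hk
  have h2 := mk_a_comm ha hl
  have h3 := mk_a_comm (k := k * l) ha (by rw [map_mul, hk, hl, one_mul])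
  simp only [QuotientGroup.mk_mul] at h3
  set A : F ⧸ Hsub ε := QuotientGroup.mk a
  set B : F ⧸ Hsub ε := QuotientGroup.mk k
  set D : F ⧸ Hsub ε := QuotientGroup.mk l
  rw [← mul_assoc, h1, mul_assoc, h2, ← mul_assoc] at h3
  have h4 := mul_right_cancel h3
  have h5 := congrArg (fun x => x⁻¹) h4
  simp only [mul_inv_rev, inv_inv] at h5
  exact h5.symm

lemma KH_comm (ha : ε a = -1) (x y : KH ε) : x * y = y * x := by
  induction x using QuotientGroup.induction_on with
  | H k =>
    induction y using QuotientGroup.induction_on with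
    | H l =>
      rw [← QuotientGroup.mk_mul, ← QuotientGroup.mk_mul, QuotientGroup.eq,
        Subgroup.mem_subgroupOf]
      have h1 := mk_comm (k := (k : F)) (l := (l : F)) ha k.2 l.2
      rw [← QuotientGroup.mk_mul, ← QuotientGroup.mk_mul, QuotientGroup.eq] at h1
      simpa using h1

lemma mem_of_mk_eq {k l : ε.ker} (h : (QuotientGroup.mk k : KH ε) = QuotientGroup.mk l) :
    (k : F) * (l : F)⁻¹ ∈ Hsub ε := by
  rw [QuotientGroup.eq, Subgroup.mem_subgroupOf] at h
  have h1 := (Hsub_normal (ε := ε)).conj_mem _ h (l : F)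
  have h2 := inv_mem h1
  simp only [Subgroup.coe_mul, Subgroup.coe_inv, mul_inv_rev, inv_inv] at h2
  have h3 := (Hsub_normal (ε := ε)).conj_mem _ h (k : F)
  have h4 := inv_mem h3
  simp only [Subgroup.coe_mul, Subgroup.coe_inv, mul_inv_rev, inv_inv] at h4
  convert h4 using 1
  group

/-- representatives -/
noncomputable def rep (c : KH ε) : F := ((Quotient.out c : ε.ker) : F)

lemma rep_eps (c : KH ε) : ε (rep c) = 1 := (Quotient.out c : ε.ker).2

lemma mk_rep (c : KH ε) : (QuotientGroup.mk (⟨rep c, rep_eps c⟩ : ε.ker) : KH ε) = c :=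
  QuotientGroup.out_eq' c

/-- **Theorem T1**: in characteristic two, long words vanish. -/
theorem T1 (h2 : ∀ x : V, x + x = 0) (hq : QAll V ε) (ha : ε a = -1) {c : ℕ}
    (hnil : ∀ gs : List F, gs.length = c → ∀ x : V, gs.foldr (fun g z => g • z - z) x = 0)
    (bs : List F) (hb : ∀ b ∈ bs, ε b = 1)
    (hgen : ∀ k, ε k = 1 → ∃ l ∈ Subgroup.closure {b | b ∈ bs}, ∃ h ∈ Hsub ε, k = l * h)
    (v : V) : ∀ l : List F, l.length = bs.length + 1 → Wd a l (Xop a v) = 0 := by
  let _ : CommGroup (KH ε) :=
    { (inferInstance : Group (KH ε)) with mul_comm := KH_comm ha }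
  suffices H : ∀ t : ℕ, ∀ l : List F, l.length = bs.length + 1 → Wd a l (Xop a v) ∈ Fil F V t by
    intro l hl
    have := H c l hl
    rw [Fil_eq_bot hnil, AddSubgroup.mem_bot] at this
    exact this
  intro t
  induction t with
  | zero => intro l _; trivial
  | succ t ih =>
    obtain ⟨n, hn⟩ : ∃ n, n = bs.length + 1 := ⟨_, rfl⟩
    rw [← hn] at ih ⊢
    -- the function on K / H
    let f : (Fin n → KH ε) → V ⧸ Fil F V (t + 1) := fun x => wcl a v t (List.ofFn (rep ∘ x))
    have hcls : Cls n f := by
      apply Cls.of_adjacent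
      · intro x p hp
        obtain ⟨P, R, hlen, hPR⟩ := ofFn_split₁ (rep ∘ x) p
        show wcl a v t (List.ofFn (rep ∘ x)) = 0
        rw [hPR, comp_apply, hp]
        have h1 : (rep (1 : KH ε) : F) ∈ Hsub ε := by
          have := mem_of_mk_eq (k := ⟨rep (1 : KH ε), rep_eps _⟩) (l := 1)
            (by rw [mk_rep]; rfl)
          simpa using this
        have h3 := wcl_H h2 hq ha v t n ih P.length P R rfl hlen _ h1 1
        rw [mul_one] at h3
        rw [h3, wcl_def, Wd_one h2 hq ha]; rfl
      · intro x p q hpq k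
        obtain ⟨P, R, hlen, hPR⟩ := ofFn_split₂ (rep ∘ x) p q hpq
        show wcl a v t (List.ofFn (rep ∘ update (update x p (x p * k)) q (x q * k)))
          - wcl a v t (List.ofFn (rep ∘ update x p (x p * k)))
          - wcl a v t (List.ofFn (rep ∘ update x q (x q * k)))
          + wcl a v t (List.ofFn (rep ∘ x)) = 0
        have hpq' : p ≠ q := fun e => by rw [e] at hpq; omega
        have e0 : List.ofFn (rep ∘ x) = P ++ rep (x p) :: rep (x q) :: R := by
          rw [← hPR]; congr 1
          have u1 : rep (x p) = (rep ∘ x) p := rfl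
          have u2 : rep (x q) = (rep ∘ x) q := rfl
          rw [u1, u2, update_eq_self, update_eq_self]
        have e1 : List.ofFn (rep ∘ update x p (x p * k)) = P ++ rep (x p * k) :: rep (x q) :: R := by
          rw [← hPR]; congr 1; rw [comp_update]
          rw [eq_comm, update_eq_self_iff, update_of_ne hpq'.symm]; rfl
        have e2 : List.ofFn (rep ∘ update x q (x q * k)) = P ++ rep (x p) :: rep (x q * k) :: R := by
          rw [← hPR]; congr 1; rw [comp_update]; congr 1
          rw [eq_comm, update_eq_self_iff]; rfl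
        have e3 : List.ofFn (rep ∘ update (update x p (x p * k)) q (x q * k))
            = P ++ rep (x p * k) :: rep (x q * k) :: R := by
          rw [← hPR]; congr 1; rw [comp_update, comp_update]
        rw [e0, e1, e2, e3]
        have key := wcl_diff h2 hq ha v t n ih P R (rep_eps k) (rep (x p)) (rep (x q)) hlen
        have c1 : (rep (x p * k) : F) * (rep (x p) * rep k)⁻¹ ∈ Hsub ε := by
          have := mem_of_mk_eq (k := ⟨rep (x p * k), rep_eps _⟩)
            (l := ⟨rep (x p), rep_eps _⟩ * ⟨rep k, rep_eps _⟩)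
            (by rw [QuotientGroup.mk_mul, mk_rep, mk_rep, mk_rep])
          simpa using this
        have c2 : (rep (x q * k) : F) * (rep k * rep (x q))⁻¹ ∈ Hsub ε := by
          have := mem_of_mk_eq (k := ⟨rep (x q * k), rep_eps _⟩)
            (l := ⟨rep k, rep_eps _⟩ * ⟨rep (x q), rep_eps _⟩)
            (by rw [QuotientGroup.mk_mul, mk_rep, mk_rep, mk_rep, mul_comm])
          simpa using this
        have crefl : ∀ g : F, g * g⁻¹ ∈ Hsub ε := fun g => by rw [mul_inv_cancel]; exact one_mem _
        have cR : List.Forall₂ (fun g g' => g * g'⁻¹ ∈ Hsub ε) R R :=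
          List.forall₂_same.mpr (fun g _ => crefl g)
        rw [wcl_congr h2 hq ha v t n ih (.cons c1 (.cons c2 cR)) P (by simp; omega),
          wcl_congr h2 hq ha v t n ih (.cons c1 (.cons (crefl _) cR)) P (by simp; omega),
          wcl_congr h2 hq ha v t n ih (.cons (crefl _) (.cons c2 cR)) P (by simp; omega)]
        exact key
    -- vanishing of `f`
    have hf0 : ∀ x, f x = 0 := by
      intro x
      refine hcls.zero (bs.pmap (fun b hb => (QuotientGroup.mk (⟨b, hb⟩ : ε.ker) : KH ε))
        (fun b hb' => hb b hb')) n f (by simp [hn]) x ?_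
      intro p
      set T := Subgroup.closure {b | b ∈ bs.pmap (fun b hb =>
        (QuotientGroup.mk (⟨b, hb⟩ : ε.ker) : KH ε)) (fun b hb' => hb b hb')} with hT
      have hcl : ∀ l ∈ Subgroup.closure {b | b ∈ bs}, ∃ hl : ε l = 1,
          (QuotientGroup.mk (⟨l, hl⟩ : ε.ker) : KH ε) ∈ T := by
        intro l hl
        induction hl using Subgroup.closure_induction with
        | mem b hb' =>
          refine ⟨hb b hb', Subgroup.subset_closure ?_⟩
          exact List.mem_pmap.mpr ⟨b, hb', rfl⟩
        | one => exact ⟨map_one _, one_mem T⟩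
        | mul y z _ _ hy hz =>
          obtain ⟨hy1, hy2⟩ := hy
          obtain ⟨hz1, hz2⟩ := hz
          exact ⟨by rw [map_mul, hy1, hz1, one_mul], mul_mem hy2 hz2⟩
        | inv y _ hy =>
          obtain ⟨hy1, hy2⟩ := hy
          exact ⟨by rw [map_inv, hy1, inv_one], inv_mem hy2⟩
      generalize x p = y
      induction y using QuotientGroup.induction_on with
      | H k =>
        obtain ⟨l, hl, h, hh, hk⟩ := hgen k k.2
        obtain ⟨hl1, hl2⟩ := hcl l hl
        have e : (QuotientGroup.mk k : KH ε) = QuotientGroup.mk (⟨l, hl1⟩ : ε.ker) := by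
          rw [eq_comm, QuotientGroup.eq, Subgroup.mem_subgroupOf]
          simp only [Subgroup.coe_mul, Subgroup.coe_inv, hk, inv_mul_cancel_left]
          exact hh
        rw [e]; exact hl2
    -- words with entries in K
    have hK : ∀ l : List F, l.length = n → (∀ g ∈ l, ε g = 1) → wcl a v t l = 0 := by
      intro l hl hlK
      have hx : ∀ i : Fin n, ∃ x : KH ε, (l[(i : ℕ)]'(by rw [hl]; exact i.2)) * (rep x)⁻¹ ∈ Hsub ε := by
        intro i
        have hi : ε (l[(i : ℕ)]'(by rw [hl]; exact i.2)) = 1 := hlK _ (List.getElem_mem _)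
        refine ⟨QuotientGroup.mk (⟨l[(i : ℕ)]'(by rw [hl]; exact i.2), hi⟩ : ε.ker), ?_⟩
        exact mem_of_mk_eq (k := ⟨l[(i : ℕ)]'(by rw [hl]; exact i.2), hi⟩)
          (l := ⟨rep (QuotientGroup.mk (⟨l[(i : ℕ)]'(by rw [hl]; exact i.2), hi⟩ : ε.ker)),
            rep_eps _⟩) (by rw [mk_rep])
      choose x hx using hx
      have h1 := hf0 x
      have h2' := wcl_congr h2 hq ha v t n ih (l := l) (l' := List.ofFn (rep ∘ x))
        (forall₂_ofFn l hl _ hx) [] (by simp [hl])
      exact h2'.trans h1
    have hred : ∀ l : List F, ∃ l' : List F, l'.length = l.length ∧ (∀ g ∈ l', ε g = 1) ∧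
        Wd a l (Xop a v) = Wd a l' (Xop a v) := by
      intro l
      induction l with
      | nil => exact ⟨[], rfl, by simp, rfl⟩
      | cons g r ihr =>
        obtain ⟨r', hr1, hr2, hr3⟩ := ihr
        rcases Int.units_eq_one_or (ε g) with hg | hg
        · refine ⟨g :: r', by simp [hr1], ?_, by rw [Wd_cons, Wd_cons, hr3]⟩
          intro x hx
          rcases List.mem_cons.mp hx with rfl | hx
          · exact hg
          · exact hr2 x hx
        · refine ⟨(g * a⁻¹) :: r', by simp [hr1], ?_, ?_⟩
          · intro x hx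
            rcases List.mem_cons.mp hx with rfl | hx
            · rw [map_mul, map_inv, hg, ha]; rfl
            · exact hr2 x hx
          · rw [Wd_cons, Wd_cons, hr3, mul_smul]
            rw [inv_fixed (Wd_fixed hq ha v r')]
    intro l hl
    obtain ⟨l', h3, h4, h5⟩ := hred l
    have h6 := hK l' (by rw [h3, hl]) h4
    rw [wcl_def, QuotientAddGroup.eq_zero_iff] at h6
    rw [h5]; exact h6

end Pool.Agent.Helper59.Split
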